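import Mathlib
import Pool.Agent.H270R3.Cap.Defs

/-!
`H^∞` of the circle, its subspaces defined by finitely many functionals, exposed points.
-/

set_option autoImplicit false

open MeasureTheory
open scoped ENNReal

namespace Pool.Agent.Q192.HX

open Pool.Agent.H270R3.Cap

theorem coeff_add_inf (f g : Linf) (n : ℤ) :
    fourierCoeff (f + g : Linf) n = fourierCoeff f n + fourierCoeff g n := by
  have hf : Integrable (fun x => fourier (-n) x • f x) m :=
    ((Lp.memLp f).integrable le_top).bdd_mul (c := 1)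
      ((fourier (-n) : C(Circ, ℂ)).continuous.aestronglyMeasurable)
      (Filter.Eventually.of_forall fun x => by rw [fourier_apply]; exact le_of_eq (Circle.norm_coe _))
  have hg : Integrable (fun x => fourier (-n) x • g x) m :=
    ((Lp.memLp g).integrable le_top).bdd_mul (c := 1)
      ((fourier (-n) : C(Circ, ℂ)).continuous.aestronglyMeasurable)
      (Filter.Eventually.of_forall fun x => by rw [fourier_apply]; exact le_of_eq (Circle.norm_coe _))
  rw [fourierCoeff, fourierCoeff, fourierCoeff, ← integral_add hf hg]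
  refine integral_congr_ae ?_
  filter_upwards [Lp.coeFn_add f g] with x hx
  rw [hx, Pi.add_apply, smul_add]

theorem coeff_smul_inf (c : ℂ) (f : Linf) (n : ℤ) :
    fourierCoeff (c • f : Linf) n = c * fourierCoeff f n := by
  rw [fourierCoeff, fourierCoeff, ← integral_const_mul]
  refine integral_congr_ae ?_
  filter_upwards [Lp.coeFn_smul c f] with x hx
  rw [hx, Pi.smul_apply, smul_eq_mul, smul_eq_mul, smul_eq_mul]
  ring

/-- `H^∞`: the subspace of `L^∞` of the functions whose Fourier coefficients of negative index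
vanish. -/
noncomputable def Hinf : Submodule ℂ (Lp ℂ ∞ m) where
  carrier := {f | ∀ n : ℤ, n < 0 → fourierCoeff f n = 0}
  add_mem' {f g} hf hg n hn := by rw [coeff_add_inf, hf n hn, hg n hn, add_zero]
  zero_mem' n _ := by
    have h := coeff_smul_inf 0 0 n
    rwa [zero_smul, zero_mul] at h
  smul_mem' c f hf n hn := by rw [coeff_smul_inf, hf n hn, mul_zero]

theorem mem_Hinf (f : Lp ℂ ∞ m) : f ∈ Hinf ↔ ∀ n : ℤ, n < 0 → fourierCoeff f n = 0 := Iff.rfl

/-- `H^∞_Φ`: the functions in `H^∞` annihilated by all functionals in `Φ`. -/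
noncomputable def HPhi (Φ : Set (StrongDual ℂ Hinf)) : Submodule ℂ (Lp ℂ ∞ m) where
  carrier := {f | ∃ h : f ∈ Hinf, ∀ φ ∈ Φ, φ ⟨f, h⟩ = 0}
  add_mem' {f g} hf hg := by
    obtain ⟨h1, h2⟩ := hf
    obtain ⟨h3, h4⟩ := hg
    refine ⟨Hinf.add_mem h1 h3, fun φ hφ => ?_⟩
    have h5 : (⟨f + g, Hinf.add_mem h1 h3⟩ : Hinf) = ⟨f, h1⟩ + ⟨g, h3⟩ := rfl
    rw [h5, map_add, h2 φ hφ, h4 φ hφ, add_zero]
  zero_mem' := ⟨Hinf.zero_mem, fun φ _ => map_zero φ⟩
  smul_mem' c f hf := by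
    obtain ⟨h1, h2⟩ := hf
    refine ⟨Hinf.smul_mem c h1, fun φ hφ => ?_⟩
    have h5 : (⟨c • f, Hinf.smul_mem c h1⟩ : Hinf) = c • ⟨f, h1⟩ := rfl
    rw [h5, map_smul, h2 φ hφ, smul_zero]

theorem mem_HPhi (Φ : Set (StrongDual ℂ Hinf)) (f : Lp ℂ ∞ m) :
    f ∈ HPhi Φ ↔ ∃ h : f ∈ Hinf, ∀ φ ∈ Φ, φ ⟨f, h⟩ = 0 := Iff.rfl

/-- `x` is an exposed point of the closed unit ball of `X`. -/
def Exposed {X : Type*} [NormedAddCommGroup X] [NormedSpace ℂ X] (x : X) : Prop :=
  ‖x‖ ≤ 1 ∧ ∃ φ : StrongDual ℂ X, ‖φ‖ = 1 ∧ {y : X | ‖y‖ ≤ 1 ∧ φ y = 1} = {x}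

end Pool.Agent.Q192.HX
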