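import Mathlib
import Pool.Agent.Q192.HX.Defs

/-!
`H^∞` of the circle as a Banach space, its subspaces defined by finitely many functionals, exposed
points.
-/

set_option autoImplicit false

open MeasureTheory
open scoped ENNReal

namespace Pool.Agent.Q192.HX.St

/-- The circle `ℝ / 2πℤ`; the point `x` stands for `e^{ix}`. -/
abbrev Circ : Type := AddCircle (2 * Real.pi)

/-- Normalised Lebesgue (Haar) measure on the circle. -/
noncomputable def m : Measure Circ := AddCircle.haarAddCircle (T := 2 * Real.pi)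

/-- The Banach space `L^∞` of the circle. -/
def LInf : Type := Lp ℂ ∞ m

noncomputable instance LInf.normedAddCommGroup : NormedAddCommGroup LInf :=
  Lp.instNormedAddCommGroup

noncomputable instance LInf.normedSpace : NormedSpace ℂ LInf := Lp.instNormedSpace

/-- A representative of a class in `L^∞`. -/
noncomputable def LInf.fn (f : LInf) : Circ → ℂ := AEEqFun.cast (Subtype.val f)

/-- `f ∈ L^∞` is in `H^∞`: its Fourier coefficients of negative index vanish. -/
def IsH (f : LInf) : Prop := ∀ n : ℤ, n < 0 → ∫ x, fourier (-n) x * f.fn x ∂m = 0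

theorem isH_iff (f : LInf) : IsH f ↔ (f : Lp ℂ ∞ Pool.Agent.H270R3.Cap.m) ∈ Hinf := Iff.rfl

theorem isH_add {f g : LInf} (hf : IsH f) (hg : IsH g) : IsH (f + g) := Hinf.add_mem hf hg

theorem isH_zero : IsH 0 := Hinf.zero_mem

theorem isH_smul (c : ℂ) {f : LInf} (hf : IsH f) : IsH (c • f) := Hinf.smul_mem c hf

/-- `H^∞` as a linear subspace of `L^∞`. -/
noncomputable def HinfSub : Submodule ℂ LInf where
  carrier := {f | IsH f}
  add_mem' := isH_add
  zero_mem' := isH_zero
  smul_mem' := isH_smul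

/-- `H^∞` with the norm of `L^∞`. -/
def HSp : Type := HinfSub

noncomputable instance HSp.normedAddCommGroup : NormedAddCommGroup HSp :=
  Submodule.normedAddCommGroup HinfSub

noncomputable instance HSp.normedSpace : NormedSpace ℂ HSp := Submodule.normedSpace HinfSub

/-- A representative of a class in `H^∞`. -/
noncomputable def HSp.fn (f : HSp) : Circ → ℂ := LInf.fn (Subtype.val (p := fun x => x ∈ HinfSub) f)

theorem hphi_add {Φ : Set (StrongDual ℂ HSp)} {f g : HSp} (hf : ∀ φ ∈ Φ, φ f = 0)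
    (hg : ∀ φ ∈ Φ, φ g = 0) : ∀ φ ∈ Φ, φ (f + g) = 0 := fun φ hφ => by
  rw [map_add, hf φ hφ, hg φ hφ, add_zero]

theorem hphi_zero {Φ : Set (StrongDual ℂ HSp)} : ∀ φ ∈ Φ, φ (0 : HSp) = 0 := fun φ _ => map_zero φ

theorem hphi_smul {Φ : Set (StrongDual ℂ HSp)} (c : ℂ) {f : HSp} (hf : ∀ φ ∈ Φ, φ f = 0) :
    ∀ φ ∈ Φ, φ (c • f) = 0 := fun φ hφ => by
  rw [map_smul, hf φ hφ, smul_zero]

/-- `H^∞_Φ`: the functions in `H^∞` annihilated by all functionals in `Φ`. -/
def HPhi (Φ : Set (StrongDual ℂ HSp)) : Submodule ℂ HSp where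
  carrier := {f | ∀ φ ∈ Φ, φ f = 0}
  add_mem' := hphi_add
  zero_mem' := hphi_zero
  smul_mem' := hphi_smul

/-- `x` is an exposed point of the closed unit ball of the complex normed space `X`. -/
def Exposed {X : Type*} [NormedAddCommGroup X] [NormedSpace ℂ X] (x : X) : Prop :=
  ‖x‖ ≤ 1 ∧ ∃ φ : StrongDual ℂ X, ‖φ‖ = 1 ∧ {y : X | ‖y‖ ≤ 1 ∧ φ y = 1} = {x}

end Pool.Agent.Q192.HX.St
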