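import Mathlib
import Pool.Agent.H270R3.Cap.Outer
import Pool.Agent.H581R3.GPR.Rot

/-!
Functions in `H^∞`: exponentials, powers, uniqueness.
-/

set_option autoImplicit false

open MeasureTheory Filter Topology
open scoped ENNReal ComplexConjugate InnerProductSpace

namespace Pool.Agent.Q192.HX

open Pool.Agent.H270R3.Cap

theorem re_dil_le' {r : ℝ} (h0 : 0 ≤ r) (h1 : r < 1) {X : L2} (hX : X ∈ H2) {C : ℝ}
    (hC : ∀ᵐ x ∂m, (X x).re ≤ C) (x : Circ) : (dil r X x).re ≤ C := by
  rw [dil_apply h0 h1 hX]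
  set w := (r : ℂ) * zf x with hw
  have hw1 : ‖w‖ < 1 := by rw [hw, rz_norm h0]; exact h1
  rw [← P1 hw1 hX]
  have hi : Integrable (fun y => (pk w y : ℂ) * X y) m :=
    (memLp_pk_mul w (Lp.memLp X)).integrable (by norm_num)
  have h2 : (∫ y, (pk w y : ℂ) * X y ∂m).re = ∫ y, pk w y * (X y).re ∂m := by
    have h3 := integral_re hi
    have h4 : ∫ y, pk w y * (X y).re ∂m = ∫ y, RCLike.re ((pk w y : ℂ) * X y) ∂m := by
      refine integral_congr_ae (Eventually.of_forall fun y => ?_)
      show pk w y * (X y).re = ((pk w y : ℂ) * X y).re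
      rw [Complex.re_ofReal_mul]
    rw [h4, h3]; rfl
  have hi2 : Integrable (fun y => pk w y * (X y).re) m := by
    refine hi.re.congr (Eventually.of_forall fun y => ?_)
    show ((pk w y : ℂ) * X y).re = pk w y * (X y).re
    rw [Complex.re_ofReal_mul]
  rw [h2]
  have hpi : Integrable (pk w) m :=
    (pk_continuous w).integrable_of_hasCompactSupport (HasCompactSupport.of_compactSpace _)
  have h3 : ∫ y, pk w y * (X y).re ∂m ≤ ∫ y, pk w y * C ∂m := by
    refine integral_mono_ae hi2 (hpi.mul_const C) ?_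
    filter_upwards [hC] with y hy
    exact mul_le_mul_of_nonneg_left hy (pk_nonneg hw1 y)
  rw [integral_mul_const, int_pk hw1, one_mul] at h3
  exact h3

theorem ev_zero {X : L2} (hX : X ∈ H2) : ev 0 X = fourierCoeff X 0 := by
  have h1 := ev_hasSum (w := 0) (by simp) hX
  refine h1.unique ?_
  have h2 : (fun n : ℕ => fourierCoeff X (n : ℤ) * (0 : ℂ) ^ n)
      = fun n => if n = 0 then fourierCoeff X 0 else 0 := by
    ext n
    by_cases hn : n = 0
    · subst hn; simp
    · simp [hn]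
  rw [h2]
  exact hasSum_ite_eq 0 _

/-- the exponential of an `H²` function with real part bounded above is in `H^∞` -/
theorem exp_hinf' {X : L2} (hX : X ∈ H2) {C : ℝ} (hC : ∀ᵐ x ∂m, (X x).re ≤ C) :
    ∃ b : L2, b ∈ H2 ∧ (∀ᵐ x ∂m, b x = Complex.exp (X x)) ∧
      fourierCoeff b 0 = Complex.exp (fourierCoeff X 0) := by
  have hmeas : AEStronglyMeasurable (fun x => Complex.exp (X x)) m :=
    Complex.continuous_exp.comp_aestronglyMeasurable (Lp.aestronglyMeasurable X)
  have hbd : ∀ᵐ x ∂m, ‖Complex.exp (X x)‖ ≤ Real.exp C := by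
    filter_upwards [hC] with x hx
    rw [Complex.norm_exp]
    exact Real.exp_le_exp.2 hx
  have hI : MemLp (fun x => Complex.exp (X x)) ∞ m := memLp_top_of_bound hmeas _ hbd
  have h2 : MemLp (fun x => Complex.exp (X x)) 2 m := hI.mono_exponent le_top
  have hlim : Tendsto (fun k => cL (eC (dil (rr k) X))) atTop (𝓝 (h2.toLp _)) := by
    rw [tendsto_iff_norm_sub_tendsto_zero]
    have h3 : Tendsto (fun k => Real.exp C * ‖cL (dil (rr k) X) - X‖) atTop (𝓝 0) := by
      have h4 := (tendsto_iff_norm_sub_tendsto_zero.1 (dil_tendsto hX)).const_mul (Real.exp C)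
      rwa [mul_zero] at h4
    refine squeeze_zero (fun k => norm_nonneg _) (fun k => ?_) h3
    apply Lp.norm_le_mul_norm_of_ae_le_mul
    filter_upwards [Lp.coeFn_sub (cL (eC (dil (rr k) X))) (h2.toLp _),
      Lp.coeFn_sub (cL (dil (rr k) X)) X, cL_ae (eC (dil (rr k) X)), cL_ae (dil (rr k) X),
      h2.coeFn_toLp, hC] with x e1 e2 e3 e4 e5 e6
    rw [e1, e2, Pi.sub_apply, Pi.sub_apply, e3, e4, e5, eC_apply]
    exact exp_lip (re_dil_le' (rr_nonneg k) (rr_lt k) hX hC x) e6
  have hmem : h2.toLp _ ∈ H2 :=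
    H2_closed.mem_of_tendsto hlim
      (Eventually.of_forall fun k => eC_mem (dil_mem (rr_nonneg k) (rr_lt k) X))
  refine ⟨h2.toLp _, hmem, h2.coeFn_toLp, ?_⟩
  rw [← ev_zero hmem, ← ev_zero hX]
  have h0 : ‖(0 : ℂ)‖ < 1 := by simp
  have h3 := ((ev 0).continuous.tendsto _).comp hlim
  have h4 := (Complex.continuous_exp.tendsto _).comp (((ev 0).continuous.tendsto _).comp
    (dil_tendsto hX))
  refine tendsto_nhds_unique h3 (h4.congr fun k => ?_)
  show Complex.exp (ev 0 (cL (dil (rr k) X))) = ev 0 (cL (eC (dil (rr k) X)))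
  rw [ev_eC h0 (dil_mem (rr_nonneg k) (rr_lt k) X)]

/-- an `H²` function with prescribed real part -/
theorem exists_re' (v : Circ → ℝ) (hvm : MemLp (fun x => (v x : ℂ)) 2 m) :
    ∃ X ∈ H2, ∀ᵐ x ∂m, (X x).re = v x := by
  set vL : L2 := hvm.toLp _ with hvL
  have hvae : vL =ᵐ[m] fun x => (v x : ℂ) := hvm.coeFn_toLp
  have hcv : ∀ n : ℤ, fourierCoeff vL (-n) = conj (fourierCoeff vL n) := by
    intro n
    have h1 : fourierCoeff vL = fourierCoeff (fun x => conj (vL x)) := by
      apply fourierCoeff_congr_ae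
      filter_upwards [hvae] with x hx
      rw [hx, Complex.conj_ofReal]
    calc fourierCoeff vL (-n) = fourierCoeff (fun x => conj (vL x)) (-n) := by
          exact congrFun h1 (-n)
      _ = conj (fourierCoeff vL n) := by rw [coef_conj, neg_neg]
  set p : L2 := ((H2.orthogonalProjectionOnto vL : H2) : L2) with hp
  have hpm : p ∈ H2 := (H2.orthogonalProjectionOnto vL).2
  set c : ℂ := fourierCoeff vL 0 with hc
  have hcc : conj c = c := by
    have := hcv 0
    rw [neg_zero] at this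
    exact this.symm
  have h0m : (fourierLp 2 0 : L2) ∈ H2 := by
    intro k hk
    rw [← coefL_apply, coef_fourier, if_neg (by omega)]
  set V : L2 := (2 : ℂ) • p - c • (fourierLp 2 0 : L2) with hV
  have hVm : V ∈ H2 := H2.sub_mem (H2.smul_mem _ hpm) (H2.smul_mem _ h0m)
  refine ⟨V, hVm, ?_⟩
  set Vc : L2 := (memLp_conj (Lp.memLp V)).toLp _ with hVc
  have hVcae : Vc =ᵐ[m] fun x => conj (V x) := (memLp_conj (Lp.memLp V)).coeFn_toLp
  have hVcoef : ∀ n : ℤ, fourierCoeff V n
      = (if 0 < n then 2 * fourierCoeff vL n else if n = 0 then c else 0) := by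
    intro n
    by_cases h1 : n < 0
    · rw [hVm n h1, if_neg (by omega), if_neg (by omega)]
    · obtain ⟨k, rfl⟩ := Int.eq_ofNat_of_zero_le (not_lt.1 h1)
      rw [← coefL_apply, hV, map_sub, map_smul, map_smul, coef_fourier, coefL_apply, hp, coef_proj]
      by_cases hk : k = 0
      · subst hk
        simp only [Nat.cast_zero, smul_eq_mul, if_true, lt_irrefl, if_false]
        rw [← hc]; ring
      · rw [if_neg (by omega), if_pos (by omega)]
        simp
  have hsum : V + Vc = (2 : ℂ) • vL := by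
    apply L2_ext_coef
    intro n
    rw [← coefL_apply, ← coefL_apply, map_add, map_smul, coefL_apply, coefL_apply, coefL_apply]
    have h1 : fourierCoeff Vc n = conj (fourierCoeff V (-n)) := by
      rw [← coef_conj]
      exact congrFun (fourierCoeff_congr_ae hVcae) n
    rw [h1, hVcoef, hVcoef, smul_eq_mul]
    rcases lt_trichotomy n 0 with h | h | h
    · rw [if_neg (by omega), if_neg (by omega), if_pos (by omega), map_mul, hcv, Complex.conj_conj,
        map_ofNat, zero_add]
    · subst h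
      simp only [neg_zero, lt_irrefl, if_false, if_true]
      rw [hcc, ← hc]; ring
    · rw [if_pos h, if_neg (by omega), if_neg (by omega), map_zero, add_zero]
  have h1 : (V + Vc : L2) =ᵐ[m] ((2 : ℂ) • vL : L2) := by rw [hsum]
  filter_upwards [h1, Lp.coeFn_add V Vc, Lp.coeFn_smul (2 : ℂ) vL, hvae, hVcae] with x e1 e2 e3 e4 e5
  rw [e2, e3, Pi.add_apply, Pi.smul_apply, e4, e5, smul_eq_mul, Complex.add_conj] at e1
  have e6 : (2 * (V x).re : ℝ) = 2 * v x := by exact_mod_cast e1
  linarith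

/-- negative Fourier coefficients of a power of `1 + ε F` vanish -/
theorem pow_hinf {F : L2} (hF : F ∈ H2) (hre : ∀ᵐ x ∂m, 0 ≤ (F x).re) {ε s : ℝ} (hε : 0 < ε)
    (hs : 0 < s) (n : ℤ) (hn : n < 0) :
    fourierCoeff (fun x => (1 + (ε : ℂ) * F x) ^ (((-s : ℝ)) : ℂ)) n = 0 := by
  -- kernel
  set G : Circ → ℝ → ℂ := fun x t =>
    (t : ℂ) ^ ((s : ℂ) - 1) * Complex.exp (-((1 + (ε : ℂ) * F x) * t)) with hG
  have hGam : Complex.Gamma (s : ℂ) ≠ 0 :=
    Complex.Gamma_ne_zero_of_re_pos (by simpa using hs)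
  have hrep : ∀ᵐ x ∂m, (1 + (ε : ℂ) * F x) ^ (((-s : ℝ)) : ℂ) * Complex.Gamma s
      = ∫ t in Set.Ioi (0 : ℝ), G x t := by
    filter_upwards [hre] with x hx
    have h1 : 0 < (1 + (ε : ℂ) * F x).re := by
      rw [Complex.add_re, Complex.one_re, Complex.re_ofReal_mul]
      positivity
    have h2 := Pool.Agent.H581R3.GPR.Rot.rot_formula (a := (s : ℂ)) (r := 1 + (ε : ℂ) * F x)
      (by simpa using hs) h1
    rw [hG]
    dsimp only
    rw [h2]
    congr 1
    push_cast
    rw [one_div, Complex.inv_cpow, Complex.cpow_neg]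
    intro harg
    have h3 := Complex.arg_eq_pi_iff.1 harg
    linarith [h3.1]
  have hFm : Measurable (fun x => F x) := (Lp.stronglyMeasurable F).measurable
  have hGm : Measurable (Function.uncurry G) := by
    rw [hG]
    have h1 : Measurable fun p : Circ × ℝ => (p.2 : ℂ) ^ ((s : ℂ) - 1) :=
      (Complex.measurable_ofReal.comp measurable_snd).pow_const _
    have h2 : Measurable fun p : Circ × ℝ => Complex.exp (-((1 + (ε : ℂ) * F p.1) * p.2)) := by
      refine Complex.measurable_exp.comp (Measurable.neg ?_)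
      exact ((hFm.comp measurable_fst).const_mul _ |>.const_add _).mul
        (Complex.measurable_ofReal.comp measurable_snd)
    exact h1.mul h2
  have hGbd : ∀ᵐ p ∂(m.prod (volume.restrict (Set.Ioi (0 : ℝ)))),
      ‖Function.uncurry G p‖ ≤ Real.exp (-p.2) * p.2 ^ (s - 1) := by
    have h1 : ∀ᵐ p ∂(m.prod (volume.restrict (Set.Ioi (0 : ℝ)))), 0 ≤ (F p.1).re :=
      Measure.quasiMeasurePreserving_fst.ae hre
    have h2 : ∀ᵐ p ∂(m.prod (volume.restrict (Set.Ioi (0 : ℝ)))), p.2 ∈ Set.Ioi (0 : ℝ) :=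
      Measure.quasiMeasurePreserving_snd.ae (ae_restrict_mem measurableSet_Ioi)
    filter_upwards [h1, h2] with p e1 e2
    have e2' : 0 < p.2 := e2
    show ‖(p.2 : ℂ) ^ ((s : ℂ) - 1) * Complex.exp (-((1 + (ε : ℂ) * F p.1) * p.2))‖ ≤ _
    rw [norm_mul, Complex.norm_cpow_eq_rpow_re_of_pos e2', Complex.norm_exp, mul_comm]
    have e3 : ((s : ℂ) - 1).re = s - 1 := by simp
    have e4 : (-((1 + (ε : ℂ) * F p.1) * p.2)).re ≤ -p.2 := by
      rw [Complex.neg_re, Complex.re_mul_ofReal, Complex.add_re, Complex.one_re,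
        Complex.re_ofReal_mul]
      have : 0 ≤ ε * (F p.1).re * p.2 := by positivity
      nlinarith
    rw [e3]
    exact mul_le_mul_of_nonneg_right (Real.exp_le_exp.2 e4) (Real.rpow_nonneg e2'.le _)
  have hGi : Integrable (Function.uncurry G) (m.prod (volume.restrict (Set.Ioi (0 : ℝ)))) := by
    have h1 : Integrable (fun t : ℝ => Real.exp (-t) * t ^ (s - 1))
        (volume.restrict (Set.Ioi (0 : ℝ))) := Real.GammaIntegral_convergent hs
    have h2 : Integrable (fun p : Circ × ℝ => Real.exp (-p.2) * p.2 ^ (s - 1))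
        (m.prod (volume.restrict (Set.Ioi (0 : ℝ)))) := h1.comp_snd m
    exact h2.mono' hGm.aestronglyMeasurable hGbd
  -- inner integral
  have hinner : ∀ t : ℝ, 0 < t → ∫ x, fourier (-n) x * G x t ∂m = 0 := by
    intro t ht
    have h1 : (((-(ε * t) : ℝ)) : ℂ) • F ∈ H2 := H2.smul_mem _ hF
    have h2 : ∀ᵐ x ∂m, (((((-(ε * t) : ℝ)) : ℂ) • F : L2) x).re ≤ 0 := by
      filter_upwards [Lp.coeFn_smul (((-(ε * t) : ℝ)) : ℂ) F, hre] with x e1 e2
      rw [e1, Pi.smul_apply, smul_eq_mul, Complex.re_ofReal_mul]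
      have : 0 ≤ ε * t * (F x).re := by positivity
      linarith
    obtain ⟨b, hb, hb2, _⟩ := exp_hinf' h1 h2
    have h3 := hb n hn
    have h4 : ∫ x, fourier (-n) x * G x t ∂m
        = (t : ℂ) ^ ((s : ℂ) - 1) * Complex.exp (-t) * fourierCoeff b n := by
      rw [fourierCoeff, ← integral_const_mul]
      refine integral_congr_ae ?_
      filter_upwards [hb2, Lp.coeFn_smul (((-(ε * t) : ℝ)) : ℂ) F] with x e1 e2
      rw [hG]
      dsimp only
      rw [e1, e2, Pi.smul_apply, smul_eq_mul, smul_eq_mul]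
      have e3 : -((1 + (ε : ℂ) * F x) * t) = -(t : ℂ) + (((-(ε * t) : ℝ)) : ℂ) * F x := by
        push_cast; ring
      rw [e3, Complex.exp_add]
      ring
    rw [h4, h3, mul_zero]
  have hGi2 : Integrable (Function.uncurry fun x t => fourier (-n) x * G x t)
      (m.prod (volume.restrict (Set.Ioi (0 : ℝ)))) := by
    have h1 : Measurable fun p : Circ × ℝ => fourier (-n) p.1 :=
      ((fourier (-n) : C(Circ, ℂ)).continuous.measurable).comp measurable_fst
    refine (hGi.bdd_mul (c := 1) (f := fun p : Circ × ℝ => fourier (-n) p.1)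
      h1.aestronglyMeasurable (Eventually.of_forall fun p => ?_))
    rw [fourier_apply]
    exact le_of_eq (Circle.norm_coe _)
  have hswap := integral_integral_swap hGi2
  have hz : ∫ x, (∫ t in Set.Ioi (0 : ℝ), fourier (-n) x * G x t) ∂m = 0 := by
    rw [hswap]
    have h1 : ∫ t in Set.Ioi (0 : ℝ), (∫ x, fourier (-n) x * G x t ∂m)
        = ∫ t in Set.Ioi (0 : ℝ), (0 : ℂ) := by
      refine setIntegral_congr_fun measurableSet_Ioi fun t ht => hinner t ht
    rw [h1, integral_zero]
  have hfin : fourierCoeff (fun x => (1 + (ε : ℂ) * F x) ^ (((-s : ℝ)) : ℂ)) n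
      * Complex.Gamma s = 0 := by
    rw [fourierCoeff, ← integral_mul_const, ← hz]
    refine integral_congr_ae ?_
    filter_upwards [hrep] with x hx
    rw [integral_const_mul, ← hx, smul_eq_mul]
    ring
  exact (mul_eq_zero.1 hfin).resolve_right hGam

end Pool.Agent.Q192.HX
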