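import Mathlib

/-!
Functionals on `L^∞` of a finite measure space: the part which is absolutely continuous.
-/

set_option autoImplicit false

open MeasureTheory Filter Topology
open scoped ENNReal ComplexConjugate

namespace Pool.Agent.Q192.HX

variable {α : Type*} [MeasurableSpace α] {μ : Measure α}

open Classical in
/-- the value of a functional on the class of a bounded function -/
noncomputable def ap (φ : Lp ℂ ∞ μ →L[ℂ] ℂ) (g : α → ℂ) : ℂ :=
  if h : MemLp g ∞ μ then φ (h.toLp g) else 0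

theorem ap_eq (φ : Lp ℂ ∞ μ →L[ℂ] ℂ) {g : α → ℂ} (h : MemLp g ∞ μ) : ap φ g = φ (h.toLp g) :=
  dif_pos h

theorem ap_coe (φ : Lp ℂ ∞ μ →L[ℂ] ℂ) (g : Lp ℂ ∞ μ) : ap φ g = φ g := by
  rw [ap_eq φ (Lp.memLp g), Lp.toLp_coeFn]

theorem ap_congr (φ : Lp ℂ ∞ μ →L[ℂ] ℂ) {g g' : α → ℂ} (h : g =ᵐ[μ] g') : ap φ g = ap φ g' := by
  by_cases h1 : MemLp g ∞ μ
  · have h2 : MemLp g' ∞ μ := h1.ae_eq h
    rw [ap_eq φ h1, ap_eq φ h2]
    congr 1
    exact (MemLp.toLp_eq_toLp_iff h1 h2).2 h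
  · have h2 : ¬ MemLp g' ∞ μ := fun h2 => h1 (h2.ae_eq h.symm)
    simp [ap, h1, h2]

theorem ap_add (φ : Lp ℂ ∞ μ →L[ℂ] ℂ) {g g' : α → ℂ} (h : MemLp g ∞ μ) (h' : MemLp g' ∞ μ) :
    ap φ (fun x => g x + g' x) = ap φ g + ap φ g' := by
  have h3 : MemLp (fun x => g x + g' x) ∞ μ := h.add h'
  rw [ap_eq φ h, ap_eq φ h', ap_eq φ h3, ← map_add]
  congr 1

theorem ap_smul (φ : Lp ℂ ∞ μ →L[ℂ] ℂ) (c : ℂ) {g : α → ℂ} (h : MemLp g ∞ μ) :
    ap φ (fun x => c * g x) = c * ap φ g := by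
  have h3 : MemLp (fun x => c * g x) ∞ μ := h.const_mul c
  rw [ap_eq φ h, ap_eq φ h3, ← smul_eq_mul, ← map_smul]
  congr 1

theorem memLp_bd {g : α → ℂ} (h : MemLp g ∞ μ) : ∃ C : ℝ, 0 < C ∧ ∀ᵐ x ∂μ, ‖g x‖ ≤ C := by
  refine ⟨(eLpNorm g ∞ μ).toReal + 1, by positivity, ?_⟩
  have h1 : ∀ᵐ x ∂μ, ‖g x‖ₑ ≤ eLpNorm g ∞ μ := by
    rw [eLpNorm_exponent_top]
    exact enorm_ae_le_eLpNormEssSup g μ
  filter_upwards [h1] with x hx
  have h2 := ENNReal.toReal_mono h.2.ne hx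
  rw [toReal_enorm] at h2
  linarith

theorem memLp_of_bd {g : α → ℂ} (h : AEStronglyMeasurable g μ) {C : ℝ} (hC : ∀ᵐ x ∂μ, ‖g x‖ ≤ C) :
    MemLp g ∞ μ := memLp_top_of_bound h C hC

theorem memLp_mul {g w : α → ℂ} (hg : MemLp g ∞ μ) (hw : MemLp w ∞ μ) :
    MemLp (fun x => w x * g x) ∞ μ := by
  obtain ⟨C, hC, h1⟩ := memLp_bd hg
  obtain ⟨C', hC', h2⟩ := memLp_bd hw
  refine memLp_of_bd (hw.1.mul hg.1) (C := C' * C) ?_
  filter_upwards [h1, h2] with x e1 e2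
  rw [norm_mul]
  exact mul_le_mul e2 e1 (norm_nonneg _) hC'.le

theorem ap_sum (φ : Lp ℂ ∞ μ →L[ℂ] ℂ) {ι : Type*} (s : Finset ι) {g : ι → α → ℂ}
    (h : ∀ i ∈ s, MemLp (g i) ∞ μ) :
    ap φ (fun x => ∑ i ∈ s, g i x) = ∑ i ∈ s, ap φ (g i) := by
  classical
  induction s using Finset.induction_on with
  | empty =>
    simp only [Finset.sum_empty]
    have h0 : MemLp (fun _ : α => (0 : ℂ)) ∞ μ := MemLp.zero
    have := ap_smul φ 0 h0
    simpa using this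
  | insert a s ha ih =>
    have h1 : MemLp (g a) ∞ μ := h a (Finset.mem_insert_self a s)
    have h2 : ∀ i ∈ s, MemLp (g i) ∞ μ := fun i hi => h i (Finset.mem_insert_of_mem hi)
    have h3 : MemLp (fun x => ∑ i ∈ s, g i x) ∞ μ := memLp_finsetSum s h2
    have h4 : (fun x => ∑ i ∈ insert a s, g i x) = fun x => g a x + ∑ i ∈ s, g i x := by
      ext x; rw [Finset.sum_insert ha]
    rw [h4, ap_add φ h1 h3, ih h2, Finset.sum_insert ha]

variable [IsFiniteMeasure μ]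

theorem toLp_le {g : α → ℂ} (h : MemLp g ∞ μ) {C : ℝ} (hC : 0 ≤ C) (hg : ∀ᵐ x ∂μ, ‖g x‖ ≤ C) :
    ‖h.toLp g‖ ≤ C := by
  have h1 : ∀ᵐ x ∂μ, ‖(h.toLp g : Lp ℂ ∞ μ) x‖ ≤ C := by
    filter_upwards [h.coeFn_toLp, hg] with x e1 e2
    rw [e1]; exact e2
  have h2 := Lp.norm_le_of_ae_bound hC h1
  simpa using h2

theorem ap_le (φ : Lp ℂ ∞ μ →L[ℂ] ℂ) {g : α → ℂ} (h : MemLp g ∞ μ) {C : ℝ} (hC : 0 ≤ C)
    (hg : ∀ᵐ x ∂μ, ‖g x‖ ≤ C) : ‖ap φ g‖ ≤ ‖φ‖ * C := by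
  rw [ap_eq φ h]
  exact (φ.le_opNorm _).trans (mul_le_mul_of_nonneg_left (toLp_le h hC hg) (norm_nonneg _))

omit [IsFiniteMeasure μ] in
/-- a phase -/
theorem exists_phase (z : ℂ) : ∃ c : ℂ, ‖c‖ ≤ 1 ∧ c * z = (‖z‖ : ℂ) := by
  by_cases hz : z = 0
  · exact ⟨0, by simp, by simp [hz]⟩
  · refine ⟨conj z / (‖z‖ : ℂ), ?_, ?_⟩
    · rw [norm_div, RCLike.norm_conj, Complex.norm_real, norm_norm, div_self (norm_ne_zero_iff.2 hz)]
    · have h1 : (‖z‖ : ℂ) ≠ 0 := by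
        simpa using hz
      have h2 : conj z * z = (‖z‖ : ℂ) ^ 2 := by
        rw [mul_comm, Complex.mul_conj, Complex.normSq_eq_norm_sq]; push_cast; rfl
      rw [div_mul_eq_mul_div, h2, pow_two, mul_div_assoc, div_self h1, mul_one]

/-- functionals attaining the norm at `f` live where `|f|` is close to `1` -/
theorem sing (φ : Lp ℂ ∞ μ →L[ℂ] ℂ) (hφ : ‖φ‖ ≤ 1) {f : α → ℂ} (hf : MemLp f ∞ μ)
    (hf1 : ∀ᵐ x ∂μ, ‖f x‖ ≤ 1) (h1 : ap φ f = 1) {δ : ℝ} (hδ : 0 < δ) {g : α → ℂ}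
    (hg : MemLp g ∞ μ) (hs : ∀ᵐ x ∂μ, g x ≠ 0 → ‖f x‖ ≤ 1 - δ) : ap φ g = 0 := by
  by_contra hne
  obtain ⟨K, hK, hgK⟩ := memLp_bd hg
  obtain ⟨c, hc, hc2⟩ := exists_phase (ap φ g)
  set l : ℂ := ((δ / K : ℝ) : ℂ) * c with hl
  have hln : ‖l‖ ≤ δ / K := by
    rw [hl, norm_mul, Complex.norm_real, Real.norm_of_nonneg (by positivity)]
    exact mul_le_of_le_one_right (by positivity) hc
  have h2 : MemLp (fun x => l * g x) ∞ μ := hg.const_mul l
  have h3 : MemLp (fun x => f x + l * g x) ∞ μ := hf.add h2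
  have h4 : ∀ᵐ x ∂μ, ‖f x + l * g x‖ ≤ 1 := by
    filter_upwards [hf1, hgK, hs] with x e1 e2 e3
    by_cases h0 : g x = 0
    · rw [h0, mul_zero, add_zero]; exact e1
    · have e4 := e3 h0
      have e5 : ‖l * g x‖ ≤ δ := by
        rw [norm_mul]
        calc ‖l‖ * ‖g x‖ ≤ δ / K * K := mul_le_mul hln e2 (norm_nonneg _) (by positivity)
          _ = δ := by field_simp
      linarith [norm_add_le (f x) (l * g x)]
  have h5 := ap_le φ h3 zero_le_one h4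
  rw [ap_add φ hf h2, ap_smul φ l hg, h1, hl, mul_assoc, hc2, mul_one] at h5
  have h6 : (1 : ℂ) + ((δ / K : ℝ) : ℂ) * (‖ap φ g‖ : ℂ) = ((1 + δ / K * ‖ap φ g‖ : ℝ) : ℂ) := by
    push_cast; ring
  rw [h6, Complex.norm_real, Real.norm_of_nonneg (by positivity)] at h5
  have h7 : 0 < ‖ap φ g‖ := norm_pos_iff.2 hne
  have h8 : 0 < δ / K * ‖ap φ g‖ := by positivity
  linarith

/-- bad sets -/
def Bad (φ : Lp ℂ ∞ μ →L[ℂ] ℂ) (M : ℝ) (E : Set α) : Prop :=
  MeasurableSet E ∧ ∃ g : α → ℂ, MemLp g ∞ μ ∧ (∀ x, ‖g x‖ ≤ 1) ∧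
    M * μ.real E < ‖ap φ (E.indicator g)‖

omit [IsFiniteMeasure μ] in
theorem Bad.pos {φ : Lp ℂ ∞ μ →L[ℂ] ℂ} {M : ℝ} {E : Set α} (h : Bad φ M E) : 0 < μ E := by
  obtain ⟨h1, g, h2, h3, h4⟩ := h
  by_contra h5
  have h6 : μ E = 0 := by simpa using h5
  have h7 : E.indicator g =ᵐ[μ] fun _ => (0 : ℂ) := by
    have : ∀ᵐ x ∂μ, x ∉ E := measure_eq_zero_iff_ae_notMem.1 h6
    filter_upwards [this] with x hx
    rw [Set.indicator_of_notMem hx]
  have h8 : ap φ (E.indicator g) = 0 := by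
    rw [ap_congr φ h7]
    have h0 : MemLp (fun _ : α => (0 : ℂ)) ∞ μ := MemLp.zero
    have := ap_smul φ 0 h0
    simpa using this
  rw [h8] at h4
  simp [Measure.real, h6] at h4

theorem Bad.sum {φ : Lp ℂ ∞ μ →L[ℂ] ℂ} {M : ℝ} (s : Finset (Set α)) (hs : ∀ E ∈ s, Bad φ M E)
    (hd : (s : Set (Set α)).PairwiseDisjoint id) : ∑ E ∈ s, M * μ.real E ≤ ‖φ‖ := by
  classical
  have hex : ∀ E : Set α, ∃ g : α → ℂ, E ∈ s → MemLp g ∞ μ ∧ (∀ x, ‖g x‖ ≤ 1) ∧
      (M * μ.real E : ℝ) ≤ ‖ap φ (E.indicator g)‖ ∧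
      ap φ (E.indicator g) = (‖ap φ (E.indicator g)‖ : ℂ) := by
    intro E
    by_cases hE : E ∈ s
    · obtain ⟨h1, g, h2, h3, h4⟩ := hs E hE
      obtain ⟨c, hc, hc2⟩ := exists_phase (ap φ (E.indicator g))
      have h5 : ap φ (E.indicator fun x => c * g x) = (‖ap φ (E.indicator g)‖ : ℂ) := by
        rw [← hc2, ← ap_smul φ c (h2.indicator h1)]
        congr 1
        ext x
        by_cases hx : x ∈ E
        · rw [Set.indicator_of_mem hx, Set.indicator_of_mem hx]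
        · rw [Set.indicator_of_notMem hx, Set.indicator_of_notMem hx, mul_zero]
      refine ⟨fun x => c * g x, fun _ => ⟨h2.const_mul c, fun x => ?_, ?_, ?_⟩⟩
      · rw [norm_mul]
        exact mul_le_one₀ hc (norm_nonneg _) (h3 x)
      · rw [h5, Complex.norm_real, norm_norm]; exact h4.le
      · rw [h5, Complex.norm_real, norm_norm]
    · exact ⟨0, fun h => absurd h hE⟩
  choose g hg using hex
  have hm : ∀ E ∈ s, MemLp (E.indicator (g E)) ∞ μ := fun E hE =>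
    (hg E hE).1.indicator (hs E hE).1
  have h1 : MemLp (fun x => ∑ E ∈ s, E.indicator (g E) x) ∞ μ := memLp_finsetSum s hm
  have h2 : ∀ᵐ x ∂μ, ‖∑ E ∈ s, E.indicator (g E) x‖ ≤ 1 := by
    refine Eventually.of_forall fun x => ?_
    by_cases hx : ∃ E ∈ s, x ∈ E
    · obtain ⟨E, hE, hxE⟩ := hx
      rw [Finset.sum_eq_single E]
      · rw [Set.indicator_of_mem hxE]; exact (hg E hE).2.1 x
      · intro E' hE' hne
        apply Set.indicator_of_notMem
        intro hxE'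
        exact Set.disjoint_left.1 (hd hE' hE hne) hxE' hxE
      · intro h; exact absurd hE h
    · rw [Finset.sum_eq_zero]
      · simp
      · intro E hE
        apply Set.indicator_of_notMem
        exact fun h => hx ⟨E, hE, h⟩
  have h3 := ap_le φ h1 zero_le_one h2
  rw [ap_sum φ s hm, mul_one] at h3
  have h4 : ∑ E ∈ s, ap φ (E.indicator (g E)) = ((∑ E ∈ s, ‖ap φ (E.indicator (g E))‖ : ℝ) : ℂ) := by
    push_cast
    exact Finset.sum_congr rfl fun E hE => (hg E hE).2.2.2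
  rw [h4, Complex.norm_real, Real.norm_of_nonneg (Finset.sum_nonneg fun _ _ => norm_nonneg _)] at h3
  exact (Finset.sum_le_sum fun E hE => (hg E hE).2.2.1).trans h3

/-- outside a small set the functional is dominated by a multiple of the measure -/
theorem exists_B (φ : Lp ℂ ∞ μ →L[ℂ] ℂ) {M : ℝ} (hM : 0 < M) :
    ∃ B, MeasurableSet B ∧ μ.real B ≤ ‖φ‖ / M ∧
      ∀ E, MeasurableSet E → Disjoint E B → ∀ g : α → ℂ, MemLp g ∞ μ → (∀ x, ‖g x‖ ≤ 1) →
        ‖ap φ (E.indicator g)‖ ≤ M * μ.real E := by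
  obtain ⟨F, hF⟩ := zorn_subset {F : Set (Set α) | (∀ E ∈ F, Bad φ M E) ∧ F.PairwiseDisjoint id} (by
    intro c hc hch
    refine ⟨⋃₀ c, ⟨?_, ?_⟩, fun s hs => Set.subset_sUnion_of_mem hs⟩
    · rintro E ⟨s, hs, hE⟩
      exact (hc hs).1 E hE
    · rw [Set.pairwiseDisjoint_sUnion hch.directedOn]
      exact fun a ha => (hc ha).2)
  have hF1 := hF.prop
  have hcount : F.Countable := by
    have h1 := Measure.countable_meas_pos_of_disjoint_iUnion (μ := μ) (As := fun E : F => (E : Set α))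
      (fun E => (hF1.1 E E.2).1) (fun E E' hne => hF1.2 E.2 E'.2 (fun h => hne (Subtype.ext h)))
    have h2 : {i : F | 0 < μ (i : Set α)} = Set.univ := by
      ext i
      simp only [Set.mem_univ, iff_true]
      exact (hF1.1 i i.2).pos
    rw [h2] at h1
    exact Set.countable_coe_iff.1 (Set.countable_univ_iff.1 h1)
  have hmeas : MeasurableSet (⋃₀ F) := MeasurableSet.sUnion hcount fun E hE => (hF1.1 E hE).1
  refine ⟨⋃₀ F, hmeas, ?_, ?_⟩
  · have h1 : μ (⋃₀ F) = ∑' E : F, μ (E : Set α) :=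
      measure_sUnion hcount hF1.2 fun E hE => (hF1.1 E hE).1
    have h2 : μ (⋃₀ F) ≤ ENNReal.ofReal (‖φ‖ / M) := by
      rw [h1, ENNReal.tsum_eq_iSup_sum]
      refine iSup_le fun s => ?_
      have h3 := Bad.sum (φ := φ) (M := M) (s.map (Function.Embedding.subtype _)) (by
        intro E hE
        rw [Finset.mem_map] at hE
        obtain ⟨E', _, rfl⟩ := hE
        exact hF1.1 _ E'.2) (by
        intro E hE E' hE' hne
        rw [Finset.mem_coe, Finset.mem_map] at hE hE'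
        obtain ⟨E1, _, rfl⟩ := hE
        obtain ⟨E2, _, rfl⟩ := hE'
        exact hF1.2 E1.2 E2.2 hne)
      rw [Finset.sum_map, ← Finset.mul_sum] at h3
      have h4 : ∑ E ∈ s, μ (E : Set α) = ENNReal.ofReal (∑ E ∈ s, μ.real (E : Set α)) := by
        rw [ENNReal.ofReal_sum_of_nonneg fun _ _ => measureReal_nonneg]
        exact Finset.sum_congr rfl fun E _ => by
          rw [Measure.real, ENNReal.ofReal_toReal (measure_ne_top _ _)]
      rw [h4]
      apply ENNReal.ofReal_le_ofReal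
      rw [le_div_iff₀ hM, mul_comm]
      exact h3
    rw [Measure.real]
    have h5 : 0 ≤ ‖φ‖ / M := by positivity
    exact ENNReal.toReal_le_of_le_ofReal h5 h2
  · intro E hE hEB g hg hg1
    by_contra hcon
    push Not at hcon
    have hbad : Bad φ M E := ⟨hE, g, hg, hg1, hcon⟩
    have hnew : insert E F ∈ {F : Set (Set α) | (∀ E ∈ F, Bad φ M E) ∧ F.PairwiseDisjoint id} := by
      refine ⟨?_, ?_⟩
      · rintro E' (rfl | h)
        · exact hbad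
        · exact hF1.1 _ h
      · refine hF1.2.insert fun E' hE' _ => ?_
        exact hEB.mono_right (Set.subset_sUnion_of_mem hE')
    have h1 := hF.le_of_ge hnew (Set.subset_insert E F)
    have h2 : E ∈ F := h1 (Set.mem_insert E F)
    have h3 : E ⊆ ⋃₀ F := Set.subset_sUnion_of_mem h2
    have h4 : E = ∅ := by
      rw [← Set.subset_empty_iff]
      intro x hx
      exact Set.disjoint_left.1 hEB hx (h3 hx)
    have h5 := hbad.pos
    rw [h4] at h5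
    simp at h5

end Pool.Agent.Q192.HX
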