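import Mathlib
import Pool.Agent.Q192.HX.Fun

/-!
The absolutely continuous part of a functional on `L^∞`.
-/

set_option autoImplicit false

open MeasureTheory Filter Topology
open scoped ENNReal ComplexConjugate

namespace Pool.Agent.Q192.HX

variable {α : Type*} [MeasurableSpace α] {μ : Measure α} [IsFiniteMeasure μ]

omit [IsFiniteMeasure μ] in
theorem ap_zero_ae (φ : Lp ℂ ∞ μ →L[ℂ] ℂ) {g : α → ℂ} (h : g =ᵐ[μ] fun _ => (0 : ℂ)) :
    ap φ g = 0 := by
  rw [ap_congr φ h]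
  have h0 : MemLp (fun _ : α => (0 : ℂ)) ∞ μ := MemLp.zero
  have := ap_smul φ 0 h0
  simpa using this

omit [IsFiniteMeasure μ] in
/-- `E`-part bounded by `M c μ(E)` if `|g| ≤ c` on `E` -/
theorem scaled (φ : Lp ℂ ∞ μ →L[ℂ] ℂ) {M : ℝ} {P : Set α}
    (h : ∀ E, MeasurableSet E → E ⊆ P → ∀ g : α → ℂ, MemLp g ∞ μ → (∀ x, ‖g x‖ ≤ 1) →
        ‖ap φ (E.indicator g)‖ ≤ M * μ.real E) {E : Set α} (hE : MeasurableSet E) (hEP : E ⊆ P)
    {g : α → ℂ} (hg : MemLp g ∞ μ) {c : ℝ} (hc : 0 < c) (hgc : ∀ x ∈ E, ‖g x‖ ≤ c) :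
    ‖ap φ (E.indicator g)‖ ≤ M * c * μ.real E := by
  have h1 : MemLp (E.indicator g) ∞ μ := hg.indicator hE
  have h2 := h E hE hEP (fun x => ((c⁻¹ : ℝ) : ℂ) * E.indicator g x) (h1.const_mul _) (fun x => by
    rw [norm_mul, Complex.norm_real, Real.norm_of_nonneg (by positivity)]
    by_cases hx : x ∈ E
    · rw [Set.indicator_of_mem hx]
      rw [inv_mul_le_iff₀ hc, mul_one]
      exact hgc x hx
    · rw [Set.indicator_of_notMem hx]; simp)
  have h3 : (E.indicator fun x => ((c⁻¹ : ℝ) : ℂ) * E.indicator g x)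
      = fun x => ((c⁻¹ : ℝ) : ℂ) * E.indicator g x := by
    ext x
    by_cases hx : x ∈ E
    · rw [Set.indicator_of_mem hx]
    · rw [Set.indicator_of_notMem hx, Set.indicator_of_notMem hx, mul_zero]
  rw [h3, ap_smul φ _ h1, norm_mul, Complex.norm_real, Real.norm_of_nonneg (by positivity),
    inv_mul_le_iff₀ hc] at h2
  calc ‖ap φ (E.indicator g)‖ ≤ c * (M * μ.real E) := h2
    _ = M * c * μ.real E := by ring

omit [IsFiniteMeasure μ] in
/-- a measurable, everywhere bounded representative -/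
theorem exists_rep {g : α → ℂ} (hg : MemLp g ∞ μ) : ∃ g' : α → ℂ, Measurable g' ∧ g =ᵐ[μ] g' ∧
    ∃ K : ℝ, 0 < K ∧ ∀ x, ‖g' x‖ ≤ K := by
  obtain ⟨K, hK, h1⟩ := memLp_bd hg
  obtain ⟨g1, hg1, hg2⟩ := hg.1
  refine ⟨fun x => if ‖g1 x‖ ≤ K then g1 x else 0, ?_, ?_, K, hK, ?_⟩
  · exact Measurable.ite (measurableSet_le hg1.measurable.norm measurable_const) hg1.measurable
      measurable_const
  · filter_upwards [h1, hg2] with x e1 e2
    rw [e2] at e1 ⊢
    rw [if_pos e1]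
  · intro x
    dsimp only
    split_ifs with h
    · exact h
    · simpa using hK.le

theorem slice (φ : Lp ℂ ∞ μ →L[ℂ] ℂ) {M : ℝ} (hM : 0 ≤ M) {P : Set α} (hP : MeasurableSet P)
    (h : ∀ E, MeasurableSet E → E ⊆ P → ∀ g : α → ℂ, MemLp g ∞ μ → (∀ x, ‖g x‖ ≤ 1) →
        ‖ap φ (E.indicator g)‖ ≤ M * μ.real E)
    {g : α → ℂ} (hg : MemLp g ∞ μ) :
    ‖ap φ (P.indicator g)‖ ≤ M * ∫ x in P, ‖g x‖ ∂μ := by
  obtain ⟨g', hm, hae, K, hK, hgK⟩ := exists_rep hg
  have hg' : MemLp g' ∞ μ := hg.ae_eq hae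
  have e1 : P.indicator g =ᵐ[μ] P.indicator g' := by
    filter_upwards [hae] with x hx
    by_cases h : x ∈ P
    · rw [Set.indicator_of_mem h, Set.indicator_of_mem h, hx]
    · rw [Set.indicator_of_notMem h, Set.indicator_of_notMem h]
  have e2 : ∫ x in P, ‖g x‖ ∂μ = ∫ x in P, ‖g' x‖ ∂μ := by
    refine integral_congr_ae ?_
    filter_upwards [ae_restrict_of_ae hae] with x hx
    rw [hx]
  rw [ap_congr φ e1, e2]
  have hint : Integrable (fun x => ‖g' x‖) μ := (hg'.integrable le_top).norm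
  -- slices
  have key : ∀ δ : ℝ, 0 < δ → ‖ap φ (P.indicator g')‖ ≤ M * ((∫ x in P, ‖g' x‖ ∂μ) + δ * μ.real P) := by
    intro δ hδ
    set N : ℕ := ⌊K / δ⌋₊ + 1 with hN
    set E : ℕ → Set α := fun i => P ∩ {x | ⌊‖g' x‖ / δ⌋₊ = i} with hE
    have hEm : ∀ i, MeasurableSet (E i) := fun i =>
      hP.inter ((Nat.measurable_floor.comp (hm.norm.div_const δ)) (measurableSet_singleton i))
    have hEd : Pairwise (Function.onFun Disjoint E) := by
      intro i j hij
      refine Set.disjoint_left.2 fun x hx hx' => hij ?_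
      exact hx.2.symm.trans hx'.2
    have hbd : ∀ i, ∀ x ∈ E i, ‖g' x‖ ≤ ((i : ℝ) + 1) * δ := by
      intro i x hx
      have h1 : ⌊‖g' x‖ / δ⌋₊ = i := hx.2
      have h2 := Nat.lt_floor_add_one (‖g' x‖ / δ)
      rw [h1, div_lt_iff₀ hδ] at h2
      exact h2.le
    have hbd2 : ∀ i, ∀ x ∈ E i, (i : ℝ) * δ ≤ ‖g' x‖ := by
      intro i x hx
      have h1 : ⌊‖g' x‖ / δ⌋₊ = i := hx.2
      have h2 := Nat.floor_le (a := ‖g' x‖ / δ) (by positivity)
      rw [h1, le_div_iff₀ hδ] at h2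
      exact h2
    have hmem : ∀ x ∈ P, ∃ i ∈ Finset.range N, x ∈ E i := by
      intro x hx
      refine ⟨⌊‖g' x‖ / δ⌋₊, ?_, hx, rfl⟩
      rw [Finset.mem_range, hN, Nat.lt_succ_iff]
      apply Nat.floor_le_floor
      exact div_le_div_of_nonneg_right (hgK x) hδ.le
    have hsum : P.indicator g' = fun x => ∑ i ∈ Finset.range N, (E i).indicator g' x := by
      ext x
      by_cases hx : x ∈ P
      · obtain ⟨i, hi, hxi⟩ := hmem x hx
        rw [Set.indicator_of_mem hx, Finset.sum_eq_single i]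
        · rw [Set.indicator_of_mem hxi]
        · intro j _ hne
          apply Set.indicator_of_notMem
          intro hxj
          exact Set.disjoint_left.1 (hEd hne) hxj hxi
        · intro h; exact absurd hi h
      · rw [Set.indicator_of_notMem hx, Finset.sum_eq_zero]
        intro i _
        apply Set.indicator_of_notMem
        exact fun h => hx h.1
    have hPU : P = ⋃ i ∈ Finset.range N, E i := by
      ext x
      simp only [Set.mem_iUnion, exists_prop]
      exact ⟨hmem x, fun ⟨i, _, h⟩ => h.1⟩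
    have hi1 : ∫ x in P, ‖g' x‖ ∂μ = ∑ i ∈ Finset.range N, ∫ x in E i, ‖g' x‖ ∂μ := by
      conv_lhs => rw [hPU]
      exact integral_biUnion_finset _ (fun i _ => hEm i) (fun i _ j _ hij => hEd hij)
        (fun i _ => hint.integrableOn)
    have hi2 : μ.real P = ∑ i ∈ Finset.range N, μ.real (E i) := by
      conv_lhs => rw [hPU]
      exact measureReal_biUnion_finset (fun i _ j _ hij => hEd hij) (fun i _ => hEm i)
    rw [hsum, ap_sum φ _ fun i _ => hg'.indicator (hEm i)]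
    refine (norm_sum_le _ _).trans ?_
    rw [hi1, hi2, Finset.mul_sum, ← Finset.sum_add_distrib, Finset.mul_sum]
    refine Finset.sum_le_sum fun i _ => ?_
    have h1 := scaled φ h (hEm i) Set.inter_subset_left hg' (c := ((i : ℝ) + 1) * δ) (by positivity)
      (hbd i)
    have h2 : (i : ℝ) * δ * μ.real (E i) ≤ ∫ x in E i, ‖g' x‖ ∂μ := by
      have h3 : ∫ _ in E i, (i : ℝ) * δ ∂μ ≤ ∫ x in E i, ‖g' x‖ ∂μ :=
        setIntegral_mono_on (integrable_const _).integrableOn hint.integrableOn (hEm i) (hbd2 i)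
      rw [setIntegral_const, smul_eq_mul] at h3
      linarith
    calc ‖ap φ ((E i).indicator g')‖ ≤ M * (((i : ℝ) + 1) * δ) * μ.real (E i) := h1
      _ = M * ((i : ℝ) * δ * μ.real (E i) + δ * μ.real (E i)) := by ring
      _ ≤ _ := mul_le_mul_of_nonneg_left (by linarith) hM
  refine le_of_forall_pos_le_add fun ε hε => ?_
  have h1 := key (ε / (M * μ.real P + 1)) (by positivity)
  refine h1.trans ?_
  rw [mul_add]
  have h2 : M * (ε / (M * μ.real P + 1) * μ.real P) ≤ ε := by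
    have h3 : M * (ε / (M * μ.real P + 1) * μ.real P) = ε * ((M * μ.real P) / (M * μ.real P + 1)) := by
      ring
    rw [h3]
    refine mul_le_of_le_one_right hε.le ?_
    rw [div_le_one (by positivity)]
    linarith
  linarith

/-- the inclusion of `L^∞` in `L²` -/
noncomputable def incl (μ : Measure α) [IsFiniteMeasure μ] : Lp ℂ ∞ μ →ₗ[ℂ] Lp ℂ 2 μ where
  toFun g := ((Lp.memLp g).mono_exponent le_top).toLp g
  map_add' f g := by
    apply Lp.ext
    filter_upwards [MemLp.coeFn_toLp ((Lp.memLp (f + g)).mono_exponent (q := ∞) (p := 2) le_top),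
      MemLp.coeFn_toLp ((Lp.memLp f).mono_exponent (q := ∞) (p := 2) le_top),
      MemLp.coeFn_toLp ((Lp.memLp g).mono_exponent (q := ∞) (p := 2) le_top),
      Lp.coeFn_add f g,
      Lp.coeFn_add (((Lp.memLp f).mono_exponent (q := ∞) (p := 2) le_top).toLp f)
        (((Lp.memLp g).mono_exponent (q := ∞) (p := 2) le_top).toLp g)] with x e1 e2 e3 e4 e5
    rw [e1, e4, e5, Pi.add_apply, Pi.add_apply, e2, e3]
  map_smul' c f := by
    apply Lp.ext
    filter_upwards [MemLp.coeFn_toLp ((Lp.memLp (c • f)).mono_exponent (q := ∞) (p := 2) le_top),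
      MemLp.coeFn_toLp ((Lp.memLp f).mono_exponent (q := ∞) (p := 2) le_top),
      Lp.coeFn_smul c f,
      Lp.coeFn_smul c (((Lp.memLp f).mono_exponent (q := ∞) (p := 2) le_top).toLp f)]
      with x e1 e2 e4 e5
    rw [e1, e4, RingHom.id_apply, e5, Pi.smul_apply, Pi.smul_apply, e2]

theorem incl_ae (g : Lp ℂ ∞ μ) : incl μ g =ᵐ[μ] g :=
  MemLp.coeFn_toLp ((Lp.memLp g).mono_exponent (q := ∞) (p := 2) le_top)

theorem incl_dense : DenseRange (incl μ) := by
  have h1 := Lp.simpleFunc.denseRange (E := ℂ) (μ := μ) (p := 2) (by norm_num)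
  refine Dense.mono ?_ h1
  rintro _ ⟨s, rfl⟩
  set t := Lp.simpleFunc.toSimpleFunc s with ht
  have h2 : MemLp t ∞ μ := SimpleFunc.memLp_top t μ
  refine ⟨h2.toLp t, ?_⟩
  apply Lp.ext
  filter_upwards [incl_ae (h2.toLp t), h2.coeFn_toLp, Lp.simpleFunc.toSimpleFunc_eq_toFun s]
    with x e1 e2 e3
  rw [e1, e2, ht, e3]

theorem riesz (φ : Lp ℂ ∞ μ →L[ℂ] ℂ) {M : ℝ} (hM : 0 ≤ M) {P : Set α} (hP : MeasurableSet P)
    (h : ∀ E, MeasurableSet E → E ⊆ P → ∀ g : α → ℂ, MemLp g ∞ μ → (∀ x, ‖g x‖ ≤ 1) →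
        ‖ap φ (E.indicator g)‖ ≤ M * μ.real E) :
    ∃ k : α → ℂ, MemLp k 2 μ ∧ (∀ x, x ∉ P → k x = 0) ∧
      ∀ g : α → ℂ, MemLp g ∞ μ → ap φ (P.indicator g) = ∫ x, k x * g x ∂μ := by
  -- the functional on `L^∞`
  let ψ : Lp ℂ ∞ μ →ₗ[ℂ] ℂ :=
    { toFun := fun g => ap φ (P.indicator g)
      map_add' := fun f g => by
        rw [← ap_add φ ((Lp.memLp f).indicator hP) ((Lp.memLp g).indicator hP)]
        apply ap_congr
        filter_upwards [Lp.coeFn_add f g] with x hx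
        by_cases hxP : x ∈ P
        · rw [Set.indicator_of_mem hxP, Set.indicator_of_mem hxP, Set.indicator_of_mem hxP, hx,
            Pi.add_apply]
        · rw [Set.indicator_of_notMem hxP, Set.indicator_of_notMem hxP,
            Set.indicator_of_notMem hxP, add_zero]
      map_smul' := fun c f => by
        rw [RingHom.id_apply, smul_eq_mul, ← ap_smul φ c ((Lp.memLp f).indicator hP)]
        apply ap_congr
        filter_upwards [Lp.coeFn_smul c f] with x hx
        by_cases hxP : x ∈ P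
        · rw [Set.indicator_of_mem hxP, Set.indicator_of_mem hxP, hx, Pi.smul_apply, smul_eq_mul]
        · rw [Set.indicator_of_notMem hxP, Set.indicator_of_notMem hxP, mul_zero] }
  have hψ : ∀ g : Lp ℂ ∞ μ, ψ g = ap φ (P.indicator g) := fun g => rfl
  have hb : ∃ C, ∀ g, ‖ψ g‖ ≤ C * ‖incl μ g‖ := by
    refine ⟨M * Real.sqrt (μ.real Set.univ), fun g => ?_⟩
    rw [hψ]
    refine (slice φ hM hP h (Lp.memLp g)).trans ?_
    rw [mul_assoc]
    refine mul_le_mul_of_nonneg_left ?_ hM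
    have hm2 : MemLp g 2 μ := (Lp.memLp g).mono_exponent le_top
    have h1 : ∫ x in P, ‖g x‖ ∂μ ≤ ∫ x, ‖g x‖ ∂μ :=
      setIntegral_le_integral ((Lp.memLp g).integrable le_top).norm
        (Eventually.of_forall fun x => norm_nonneg _)
    have h2 : ∫ x, ‖g x‖ ∂μ ≤ Real.sqrt (∫ x, ‖g x‖ ^ 2 ∂μ) * Real.sqrt (μ.real Set.univ) := by
      have h3 := integral_mul_norm_le_Lp_mul_Lq (μ := μ) (f := fun x => ‖g x‖)
        (g := fun _ => (1 : ℝ)) (p := 2) (q := 2) Real.HolderConjugate.two_two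
        (by simpa using hm2.norm) (by simpa using memLp_const (1 : ℝ))
      simp only [norm_norm, norm_one, mul_one, Real.rpow_two, one_pow, integral_const,
        smul_eq_mul] at h3
      rw [Real.sqrt_eq_rpow, Real.sqrt_eq_rpow]
      exact h3
    have h4 : Real.sqrt (∫ x, ‖g x‖ ^ 2 ∂μ) = ‖incl μ g‖ := by
      have h5 : ‖incl μ g‖ ^ 2 = ∫ x, ‖g x‖ ^ 2 ∂μ := by
        have h6 : inner ℂ (incl μ g) (incl μ g) = ((∫ x, ‖g x‖ ^ 2 ∂μ : ℝ) : ℂ) := by
          have h7 : ∫ t, ((‖g t‖ ^ 2 : ℝ) : ℂ) ∂μ = ((∫ t, ‖g t‖ ^ 2 ∂μ : ℝ) : ℂ) :=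
            integral_ofReal
          rw [L2.inner_def, ← h7]
          refine integral_congr_ae ?_
          filter_upwards [incl_ae g] with x hx
          rw [hx, inner_self_eq_norm_sq_to_K]
          push_cast; rfl
        rw [inner_self_eq_norm_sq_to_K] at h6
        apply Complex.ofReal_injective
        rw [← h6]
        push_cast; rfl
      rw [← h5, Real.sqrt_sq (norm_nonneg _)]
    rw [h4] at h2
    linarith
  let Ψ : Lp ℂ 2 μ →L[ℂ] ℂ := ψ.extendOfNorm (incl μ)
  have hΨ : ∀ g, Ψ (incl μ g) = ψ g := fun g => LinearMap.extendOfNorm_eq incl_dense hb g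
  set y := (InnerProductSpace.toDual ℂ (Lp ℂ 2 μ)).symm Ψ with hy
  have hy2 : ∀ z, Ψ z = inner ℂ y z := fun z => by
    rw [hy, InnerProductSpace.toDual_symm_apply]
  set k0 : α → ℂ := fun x => conj (y x) with hk0
  have hk0m : MemLp k0 2 μ := by
    refine MemLp.of_le (Lp.memLp y) (Complex.continuous_conj.comp_aestronglyMeasurable
      (Lp.aestronglyMeasurable y)) (Eventually.of_forall fun x => ?_)
    rw [hk0]; simp
  have h0 : ∀ g : Lp ℂ ∞ μ, ap φ (P.indicator g) = ∫ x, k0 x * g x ∂μ := by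
    intro g
    rw [← hψ, ← hΨ, hy2, L2.inner_def]
    refine integral_congr_ae ?_
    filter_upwards [incl_ae g] with x hx
    rw [hx, RCLike.inner_apply, mul_comm]
  refine ⟨P.indicator k0, hk0m.indicator hP, fun x hx => Set.indicator_of_notMem hx _, ?_⟩
  intro g hg
  have hgP : MemLp (P.indicator g) ∞ μ := hg.indicator hP
  have h1 := h0 (hgP.toLp _)
  have h2 : ap φ (P.indicator (hgP.toLp (P.indicator g))) = ap φ (P.indicator g) := by
    apply ap_congr
    filter_upwards [hgP.coeFn_toLp] with x hx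
    by_cases hxP : x ∈ P
    · rw [Set.indicator_of_mem hxP, hx]
    · rw [Set.indicator_of_notMem hxP, Set.indicator_of_notMem hxP]
  rw [← h2, h1]
  refine integral_congr_ae ?_
  filter_upwards [hgP.coeFn_toLp] with x hx
  rw [hx]
  by_cases hxP : x ∈ P
  · rw [Set.indicator_of_mem hxP, Set.indicator_of_mem hxP]
  · rw [Set.indicator_of_notMem hxP, Set.indicator_of_notMem hxP, mul_zero, zero_mul]

end Pool.Agent.Q192.HX
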