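import Mathlib
import Pool.Agent.Q192.HX.Yos

/-!
Decomposition of functionals on `L^∞`, second part.
-/

set_option autoImplicit false

open MeasureTheory Filter Topology
open scoped ENNReal ComplexConjugate

namespace Pool.Agent.Q192.HX

variable {α : Type*} [MeasurableSpace α] {μ : Measure α} [IsFiniteMeasure μ]

/-- `φ` is given by the integrable function `h` on functions vanishing on some `D k` -/
structure Reg (φ : Lp ℂ ∞ μ →L[ℂ] ℂ) (h : α → ℂ) (D : ℕ → Set α) : Prop where
  int : Integrable h μ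
  meas : ∀ k, MeasurableSet (D k)
  eq : ∀ k (g : α → ℂ), MemLp g ∞ μ → (∀ᵐ x ∂μ, x ∈ D k → g x = 0) → ap φ g = ∫ x, h x * g x ∂μ

theorem Reg.weight {φ : Lp ℂ ∞ μ →L[ℂ] ℂ} {h : α → ℂ} {D : ℕ → Set α} (H : Reg φ h D)
    {w : α → ℂ} (hw : MemLp w ∞ μ)
    (hs : ∀ ε : ℝ, 0 < ε → ∃ k, ∀ᵐ x ∂μ, x ∈ D k → ‖w x‖ ≤ ε) {g : α → ℂ} (hg : MemLp g ∞ μ) :
    ap φ (fun x => w x * g x) = ∫ x, h x * (w x * g x) ∂μ := by
  have hwg : MemLp (fun x => w x * g x) ∞ μ := memLp_mul hg hw
  obtain ⟨K, hK, hgK⟩ := memLp_bd hg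
  obtain ⟨K', hK', hwgK⟩ := memLp_bd hwg
  have hint : ∀ {G : α → ℂ}, MemLp G ∞ μ → Integrable (fun x => h x * G x) μ := by
    intro G hG
    obtain ⟨C, hC, hC2⟩ := memLp_bd hG
    have := H.int.bdd_mul (c := C) hG.1 hC2
    refine this.congr (Eventually.of_forall fun x => ?_)
    show G x * h x = h x * G x
    ring
  rw [← sub_eq_zero, ← norm_le_zero_iff]
  refine le_of_forall_pos_le_add fun ε hε => ?_
  rw [zero_add]
  set A : ℝ := (‖φ‖ + ∫ x, ‖h x‖ ∂μ) * K + 1 with hA
  have hI0 : 0 ≤ ∫ x, ‖h x‖ ∂μ := integral_nonneg fun x => norm_nonneg _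
  have hA0 : 0 < A := by positivity
  obtain ⟨k, hk⟩ := hs (ε / A) (by positivity)
  set G : α → ℂ := fun x => w x * g x with hG
  have h1 : MemLp ((D k).indicator G) ∞ μ := hwg.indicator (H.meas k)
  have h2 : MemLp ((D k)ᶜ.indicator G) ∞ μ := hwg.indicator (H.meas k).compl
  have hsplit : G = fun x => (D k).indicator G x + (D k)ᶜ.indicator G x := by
    ext x
    by_cases hx : x ∈ D k
    · rw [Set.indicator_of_mem hx, Set.indicator_of_notMem (by simpa using hx), add_zero]
    · rw [Set.indicator_of_notMem hx, Set.indicator_of_mem (by simpa using hx), zero_add]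
  have h3 := H.eq k _ h2 (Eventually.of_forall fun x hx =>
    Set.indicator_of_notMem (by simpa using hx) _)
  have hsm : ∀ᵐ x ∂μ, ‖(D k).indicator G x‖ ≤ ε / A * K := by
    filter_upwards [hk, hgK] with x e1 e2
    by_cases hx : x ∈ D k
    · rw [Set.indicator_of_mem hx, hG]
      show ‖w x * g x‖ ≤ _
      rw [norm_mul]
      exact mul_le_mul (e1 hx) e2 (norm_nonneg _) (by positivity)
    · rw [Set.indicator_of_notMem hx, norm_zero]; positivity
  have h4 : ap φ G = ap φ ((D k).indicator G) + ap φ ((D k)ᶜ.indicator G) := by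
    conv_lhs => rw [hsplit]
    exact ap_add φ h1 h2
  have h5 : ∫ x, h x * G x ∂μ = (∫ x, h x * (D k).indicator G x ∂μ)
      + ∫ x, h x * (D k)ᶜ.indicator G x ∂μ := by
    rw [← integral_add (hint h1) (hint h2)]
    refine integral_congr_ae (Eventually.of_forall fun x => ?_)
    have := congrFun hsplit x
    show h x * G x = h x * (D k).indicator G x + h x * (D k)ᶜ.indicator G x
    rw [this]; ring
  rw [h4, h5, h3, add_sub_add_right_eq_sub]
  have h6 := ap_le φ h1 (by positivity) hsm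
  have h7 : ‖∫ x, h x * (D k).indicator G x ∂μ‖ ≤ (∫ x, ‖h x‖ ∂μ) * (ε / A * K) := by
    rw [← integral_mul_const]
    refine norm_integral_le_of_norm_le (H.int.norm.mul_const _) ?_
    filter_upwards [hsm] with x hx
    rw [norm_mul]
    exact mul_le_mul_of_nonneg_left hx (norm_nonneg _)
  refine (norm_sub_le _ _).trans ((add_le_add h6 h7).trans ?_)
  have h8 : ‖φ‖ * (ε / A * K) + (∫ x, ‖h x‖ ∂μ) * (ε / A * K)
      = ε * (((‖φ‖ + ∫ x, ‖h x‖ ∂μ) * K) / A) := by ring
  rw [h8]
  refine mul_le_of_le_one_right hε.le ?_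
  rw [div_le_one hA0, hA]
  linarith

/-- Yosida–Hewitt -/
theorem yosida (φ : Lp ℂ ∞ μ →L[ℂ] ℂ) : ∃ (h : α → ℂ) (D : ℕ → Set α), Reg φ h D ∧ Antitone D ∧
    Tendsto (fun k => μ.real (D k)) atTop (𝓝 0) := by
  have hex := fun k : ℕ => exists_B φ (M := 2 ^ k) (by positivity)
  choose B hBm hBs hB using hex
  set P : ℕ → Set α := disjointed (fun k => (B k)ᶜ) with hP
  have hPm : ∀ k, MeasurableSet (P k) := fun k => MeasurableSet.disjointed (fun i => (hBm i).compl) k
  have hPd : Pairwise (Function.onFun Disjoint P) := disjoint_disjointed _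
  have hPB : ∀ k, P k ⊆ (B k)ᶜ := fun k => disjointed_subset _ k
  have hex2 := fun k : ℕ => riesz φ (M := 2 ^ k) (by positivity) (hPm k) (fun E hE hEP g hg hg1 =>
    hB k E hE (Set.disjoint_left.2 fun x hx => hPB k (hEP hx)) g hg hg1)
  choose q hq2 hq0 hq using hex2
  have hqi : ∀ k, Integrable (q k) μ := fun k => (hq2 k).integrable (by norm_num)
  set D : ℕ → Set α := fun k => (partialSups (fun k => (B k)ᶜ) k)ᶜ with hD
  have hDm : ∀ k, MeasurableSet (D k) := fun k => by
    rw [hD]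
    show MeasurableSet (partialSups (fun k => (B k)ᶜ) k)ᶜ
    rw [partialSups_eq_biUnion_range]
    exact (Finset.measurableSet_biUnion _ fun i _ => (hBm i).compl).compl
  have hDP : ∀ k x, x ∉ D k → ∃ j ∈ Finset.range (k + 1), x ∈ P j := by
    intro k x hx
    rw [hD] at hx
    simp only [Set.mem_compl_iff, not_not] at hx
    rw [← partialSups_disjointed, partialSups_eq_biUnion_range] at hx
    simp only [Set.mem_iUnion, exists_prop] at hx
    exact hx
  have hDP2 : ∀ k j x, x ∈ D k → j ≤ k → x ∉ P j := by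
    intro k j x hx hjk hxj
    apply hx
    rw [← partialSups_disjointed]
    exact le_partialSups_of_le (disjointed fun k => (B k)ᶜ) hjk hxj
  -- norms
  have hnorm : ∀ K : ℕ, ∑ k ∈ Finset.range K, ∫ x, ‖q k x‖ ∂μ ≤ ‖φ‖ := by
    intro K
    set s : ℕ → α → ℂ := fun k x => conj (q k x) / (‖q k x‖ : ℂ) with hs
    have hsn : ∀ k x, ‖s k x‖ ≤ 1 := by
      intro k x
      rw [hs]
      show ‖conj (q k x) / (‖q k x‖ : ℂ)‖ ≤ 1
      rw [norm_div, RCLike.norm_conj, Complex.norm_real, norm_norm]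
      exact div_self_le_one _
    have hsmm : ∀ k, MemLp (s k) ∞ μ := by
      intro k
      refine memLp_of_bd (C := 1) ?_ (Eventually.of_forall (hsn k))
      have h1 : AEMeasurable (q k) μ := (hq2 k).1.aemeasurable
      exact ((Complex.continuous_conj.measurable.comp_aemeasurable h1).div
        (Complex.measurable_ofReal.comp_aemeasurable h1.norm)).aestronglyMeasurable
    have hval : ∀ k, ap φ ((P k).indicator (s k)) = ((∫ x, ‖q k x‖ ∂μ : ℝ) : ℂ) := by
      intro k
      have hcst : ∫ x, ((‖q k x‖ : ℝ) : ℂ) ∂μ = ((∫ x, ‖q k x‖ ∂μ : ℝ) : ℂ) := integral_ofReal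
      rw [hq k (s k) (hsmm k), ← hcst]
      refine integral_congr_ae (Eventually.of_forall fun x => ?_)
      show q k x * (conj (q k x) / (‖q k x‖ : ℂ)) = (‖q k x‖ : ℂ)
      rw [← mul_div_assoc, Complex.mul_conj, Complex.normSq_eq_norm_sq]
      by_cases h0 : ‖q k x‖ = 0
      · rw [h0]; simp
      · push_cast
        rw [pow_two, mul_div_assoc, div_self (by exact_mod_cast h0), mul_one]
    have hmm : ∀ k ∈ Finset.range K, MemLp ((P k).indicator (s k)) ∞ μ :=
      fun k _ => (hsmm k).indicator (hPm k)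
    have h1 := ap_le φ (memLp_finsetSum (Finset.range K) hmm) zero_le_one
      (Eventually.of_forall fun x => by
        by_cases hx : ∃ k ∈ Finset.range K, x ∈ P k
        · obtain ⟨k, hk, hxk⟩ := hx
          rw [Finset.sum_eq_single k]
          · rw [Set.indicator_of_mem hxk]; exact hsn k x
          · intro j _ hne
            apply Set.indicator_of_notMem
            intro hxj
            exact Set.disjoint_left.1 (hPd hne) hxj hxk
          · intro h; exact absurd hk h
        · rw [Finset.sum_eq_zero]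
          · simp
          · intro k hk
            apply Set.indicator_of_notMem
            exact fun h => hx ⟨k, hk, h⟩)
    rw [ap_sum φ _ hmm, mul_one] at h1
    simp only [hval] at h1
    rw [← Complex.ofReal_sum, Complex.norm_real, Real.norm_of_nonneg
      (Finset.sum_nonneg fun k _ => integral_nonneg fun x => norm_nonneg _)] at h1
    exact h1
  -- the density
  set h : α → ℂ := fun x => ∑' k, q k x with hh
  have hsingle : ∀ k x, x ∈ P k → ∀ j, j ≠ k → q j x = 0 := by
    intro k x hx j hne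
    apply hq0 j
    intro hxj
    exact Set.disjoint_left.1 (hPd hne) hxj hx
  have hval : ∀ k x, x ∈ P k → h x = q k x := fun k x hx => by
    rw [hh]; exact tsum_eq_single k (fun j hj => hsingle k x hx j hj)
  have hsumm : ∀ x, HasSum (fun k => q k x) (h x) := by
    intro x
    by_cases hx : ∃ k, x ∈ P k
    · obtain ⟨k, hk⟩ := hx
      rw [hval k x hk]
      exact hasSum_single k (fun j hj => hsingle k x hk j hj)
    · have h0 : ∀ k, q k x = 0 := fun k => hq0 k x fun h => hx ⟨k, h⟩
      have h1 : h x = 0 := by rw [hh]; simp [h0]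
      rw [h1]
      simp only [h0]
      exact hasSum_zero
  have hhm : AEStronglyMeasurable h μ := by
    refine aestronglyMeasurable_of_tendsto_ae atTop
      (f := fun (K : ℕ) x => ∑ k ∈ Finset.range K, q k x) (fun K => ?_)
      (Eventually.of_forall fun x => (hsumm x).tendsto_sum_nat)
    exact Finset.aestronglyMeasurable_fun_sum _ fun k _ => (hq2 k).1
  have hhi : Integrable h μ := by
    refine ⟨hhm, ?_⟩
    rw [hasFiniteIntegral_iff_enorm]
    have h1 : ∫⁻ x, ‖h x‖ₑ ∂μ ≤ ∫⁻ x, ∑' k, ‖q k x‖ₑ ∂μ :=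
      lintegral_mono fun x => enorm_tsum_le_tsum_enorm
    rw [lintegral_tsum fun k => (hq2 k).1.enorm] at h1
    refine h1.trans_lt ?_
    have h2 : ∀ k, ∫⁻ x, ‖q k x‖ₑ ∂μ = ENNReal.ofReal (∫ x, ‖q k x‖ ∂μ) := fun k =>
      (ofReal_integral_norm_eq_lintegral_enorm (hqi k)).symm
    simp only [h2]
    have h3 : ∑' k, ENNReal.ofReal (∫ x, ‖q k x‖ ∂μ) ≤ ENNReal.ofReal ‖φ‖ := by
      refine ENNReal.tsum_le_of_sum_range_le fun K => ?_
      rw [← ENNReal.ofReal_sum_of_nonneg fun k _ => integral_nonneg fun x => norm_nonneg _]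
      exact ENNReal.ofReal_le_ofReal (hnorm K)
    exact h3.trans_lt ENNReal.ofReal_lt_top
  refine ⟨h, D, ⟨hhi, hDm, ?_⟩, ?_, ?_⟩
  · intro k g hg hg0
    have hmm : ∀ j ∈ Finset.range (k + 1), MemLp ((P j).indicator g) ∞ μ :=
      fun j _ => hg.indicator (hPm j)
    have hgs : g =ᵐ[μ] fun x => ∑ j ∈ Finset.range (k + 1), (P j).indicator g x := by
      filter_upwards [hg0] with x hx
      by_cases hxD : x ∈ D k
      · rw [hx hxD, Finset.sum_eq_zero]
        intro j hj
        apply Set.indicator_of_notMem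
        exact hDP2 k j x hxD (Nat.lt_succ_iff.1 (Finset.mem_range.1 hj))
      · obtain ⟨j, hj, hxj⟩ := hDP k x hxD
        rw [Finset.sum_eq_single j]
        · rw [Set.indicator_of_mem hxj]
        · intro i _ hne
          apply Set.indicator_of_notMem
          intro hxi
          exact Set.disjoint_left.1 (hPd hne) hxi hxj
        · intro h; exact absurd hj h
    rw [ap_congr φ hgs, ap_sum φ _ hmm]
    obtain ⟨C, hC, hC2⟩ := memLp_bd hg
    have hint : ∀ j, Integrable (fun x => q j x * g x) μ := by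
      intro j
      refine ((hqi j).bdd_mul (c := C) hg.1 hC2).congr (Eventually.of_forall fun x => ?_)
      show g x * q j x = q j x * g x
      ring
    simp only [hq _ g hg]
    rw [← integral_finsetSum _ fun j _ => hint j]
    refine integral_congr_ae ?_
    filter_upwards [hg0] with x hx
    rw [← Finset.sum_mul]
    by_cases hxD : x ∈ D k
    · rw [hx hxD, mul_zero, mul_zero]
    · obtain ⟨j, hj, hxj⟩ := hDP k x hxD
      congr 1
      rw [hval j x hxj, Finset.sum_eq_single j]
      · intro i _ hne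
        exact hsingle j x hxj i hne
      · intro h; exact absurd hj h
  · intro i j hij
    exact Set.compl_subset_compl.2 ((partialSups fun k => (B k)ᶜ).monotone hij)
  · have h1 : ∀ k, μ.real (D k) ≤ ‖φ‖ / 2 ^ k := by
      intro k
      refine (measureReal_mono ?_).trans (hBs k)
      intro x hx
      by_contra hxB
      exact hx (le_partialSups (fun k => (B k)ᶜ) k hxB)
    refine squeeze_zero (fun k => measureReal_nonneg) h1 ?_
    have h2 : Tendsto (fun k : ℕ => ‖φ‖ * (1 / 2 : ℝ) ^ k) atTop (𝓝 (‖φ‖ * 0)) :=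
      (tendsto_pow_atTop_nhds_zero_of_lt_one (by norm_num) (by norm_num)).const_mul _
    rw [mul_zero] at h2
    refine h2.congr fun k => ?_
    rw [one_div, inv_pow]; rfl

omit [IsFiniteMeasure μ] in
/-- an integrable function which is large on the sets `A n` -/
theorem exists_q {A : ℕ → Set α} (hA : ∀ n, MeasurableSet (A n)) (hanti : Antitone A)
    (h0 : Tendsto (fun n => μ (A n)) atTop (𝓝 0)) :
    ∃ q : α → ℝ, Measurable q ∧ (∀ x, 0 ≤ q x) ∧ Integrable q μ ∧
      ∀ K : ℕ, ∃ n, ∀ᵐ x ∂μ, x ∈ A n → (K : ℝ) ≤ q x := by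
  have hex : ∀ i : ℕ, ∃ N, ∀ n, N ≤ n → μ (A n) ≤ (2 : ℝ≥0∞)⁻¹ ^ i := by
    intro i
    have h1 : ∀ᶠ n in atTop, μ (A n) < (2 : ℝ≥0∞)⁻¹ ^ i :=
      h0.eventually_lt_const (by
        apply pos_of_ne_zero
        apply pow_ne_zero
        simp)
    obtain ⟨N, hN⟩ := eventually_atTop.1 h1
    exact ⟨N, fun n hn => (hN n hn).le⟩
  choose N hN using hex
  set n : ℕ → ℕ := fun i => ∑ j ∈ Finset.range (i + 1), N j with hn
  have hnm : Monotone n := by
    refine monotone_nat_of_le_succ fun i => ?_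
    show ∑ j ∈ Finset.range (i + 1), N j ≤ ∑ j ∈ Finset.range (i + 1 + 1), N j
    rw [Finset.sum_range_succ _ (i + 1)]
    exact Nat.le_add_right _ _
  have hnN : ∀ i, N i ≤ n i := fun i => by
    rw [hn]
    show N i ≤ ∑ j ∈ Finset.range (i + 1), N j
    rw [Finset.sum_range_succ]
    exact Nat.le_add_left _ _
  set Q : α → ℝ≥0∞ := fun x => ∑' i, (A (n i)).indicator (fun _ => (1 : ℝ≥0∞)) x with hQ
  have hQm : Measurable Q := Measurable.tsum fun i => measurable_const.indicator (hA _)
  have hQi : ∫⁻ x, Q x ∂μ ≠ ∞ := by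
    rw [lintegral_tsum fun i => (measurable_const.indicator (hA _)).aemeasurable]
    have h1 : ∀ i, ∫⁻ x, (A (n i)).indicator (fun _ => (1 : ℝ≥0∞)) x ∂μ ≤ (2 : ℝ≥0∞)⁻¹ ^ i := by
      intro i
      rw [lintegral_indicator (hA _), lintegral_const, one_mul, Measure.restrict_apply_univ]
      exact hN i _ (hnN i)
    refine ((ENNReal.tsum_le_tsum h1).trans_lt ?_).ne
    rw [ENNReal.tsum_geometric, ENNReal.one_sub_inv_two, inv_inv]
    exact ENNReal.ofNat_lt_top
  have hQf : ∀ᵐ x ∂μ, Q x < ∞ := ae_lt_top hQm hQi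
  refine ⟨fun x => (Q x).toReal, hQm.ennreal_toReal, fun x => ENNReal.toReal_nonneg,
    integrable_toReal_of_lintegral_ne_top hQm.aemeasurable hQi, fun K => ⟨n K, ?_⟩⟩
  filter_upwards [hQf] with x hx hxA
  have h1 : (K : ℝ≥0∞) ≤ Q x := by
    have h2 : ∑ i ∈ Finset.range K, (A (n i)).indicator (fun _ => (1 : ℝ≥0∞)) x ≤ Q x :=
      ENNReal.sum_le_tsum _
    refine le_trans (le_of_eq ?_) h2
    rw [Finset.sum_congr rfl (g := fun _ => (1 : ℝ≥0∞))]
    · simp
    · intro i hi
      rw [Set.indicator_of_mem]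
      exact hanti (hnm (Finset.mem_range.1 hi).le) hxA
  have h3 := ENNReal.toReal_mono hx.ne h1
  simpa using h3

end Pool.Agent.Q192.HX
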