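import Mathlib
import Pool.Agent.Q192.HX.Hard
import Pool.Agent.Q192.HX.Yos2

/-!
Weights in `H^∞` and the uniqueness theorem.
-/

set_option autoImplicit false

open MeasureTheory Filter Topology
open scoped ENNReal ComplexConjugate InnerProductSpace

namespace Pool.Agent.Q192.HX

open Pool.Agent.H270R3.Cap

/-- bounded function whose Fourier coefficients of negative index vanish -/
def Ana (g : Circ → ℂ) : Prop := MemLp g ∞ m ∧ ∀ n : ℤ, n < 0 → fourierCoeff g n = 0

theorem Ana.toH2 {g : Circ → ℂ} (hg : Ana g) : (hg.1.mono_exponent le_top).toLp g ∈ H2 := by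
  intro n hn
  exact (congrFun (fourierCoeff_congr_ae
    (MemLp.coeFn_toLp (hg.1.mono_exponent (q := ∞) (p := 2) le_top))) n).trans (hg.2 n hn)

theorem Ana.mul {w g : Circ → ℂ} (hw : Ana w) (hg : Ana g) : Ana (fun x => w x * g x) := by
  refine ⟨memLp_mul hg.1 hw.1, fun n hn => ?_⟩
  have hb : IsHinf (hw.1.toLp w) := fun k hk =>
    (congrFun (fourierCoeff_congr_ae hw.1.coeFn_toLp) k).trans (hw.2 k hk)
  have h1 := mulOp_mem hb hg.toH2 n hn
  rw [← h1]
  refine congrFun (fourierCoeff_congr_ae ?_) n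
  filter_upwards [mulOp_ae (hw.1.toLp w) ((hg.1.mono_exponent (q := ∞) (p := 2) le_top).toLp g),
    hw.1.coeFn_toLp, MemLp.coeFn_toLp (hg.1.mono_exponent (q := ∞) (p := 2) le_top)] with x e1 e2 e3
  rw [e1, e2, e3]

theorem pow_norm_le {z : ℂ} (hz : 0 < z.re) {s : ℝ} (hs : 0 < s) :
    ‖z ^ (((-s : ℝ)) : ℂ)‖ ≤ z.re ^ (-s) := by
  rw [Complex.norm_cpow_real]
  apply Real.rpow_le_rpow_of_nonpos hz (Complex.re_le_norm z) (by linarith)

theorem pow_re_ge {z : ℂ} (hz : 0 < z.re) {s : ℝ} (hs : 0 < s) (hs1 : s ≤ 1) :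
    Real.cos (s * (Real.pi / 2)) * ‖z ^ (((-s : ℝ)) : ℂ)‖ ≤ (z ^ (((-s : ℝ)) : ℂ)).re := by
  have hz0 : z ≠ 0 := by
    rintro rfl
    simp at hz
  rw [Complex.cpow_def_of_ne_zero hz0, Complex.norm_exp, Complex.exp_re, mul_comm]
  refine mul_le_mul_of_nonneg_left ?_ (Real.exp_pos _).le
  have h1 : (Complex.log z * ((-s : ℝ) : ℂ)).im = -(s * z.arg) := by
    rw [Complex.im_mul_ofReal, Complex.log_im]; ring
  rw [h1, Real.cos_neg, ← Real.cos_abs (s * z.arg), abs_mul, abs_of_pos hs]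
  have h2 : |z.arg| ≤ Real.pi / 2 := Complex.abs_arg_le_pi_div_two_iff.2 hz.le
  apply Real.cos_le_cos_of_nonneg_of_le_pi (by positivity)
  · have : s * (Real.pi / 2) ≤ 1 * (Real.pi / 2) :=
      mul_le_mul_of_nonneg_right hs1 (by positivity)
    linarith [Real.pi_pos]
  · exact mul_le_mul_of_nonneg_left h2 hs.le

/-- the family of weights -/
theorem exists_weights (q : Circ → ℝ) (hqm : Measurable q) (hq0 : ∀ x, 0 ≤ q x)
    (hqi : Integrable q m) :
    ∃ W : ℝ → ℕ → Circ → ℂ, (∀ s, 0 < s → s ≤ 1 →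
      (∀ n, Ana (W s n)) ∧ (∀ n, ∀ᵐ x ∂m, ‖W s n x‖ ≤ 1) ∧
      (∀ n, ∀ᵐ x ∂m, Real.cos (s * (Real.pi / 2)) * ‖W s n x‖ ≤ (W s n x).re) ∧
      (∀ n, ∀ᵐ x ∂m, W s n x ≠ 0) ∧
      (∀ n, ∀ δ : ℝ, 0 < δ → ∃ K : ℕ, ∀ᵐ x ∂m, (K : ℝ) ≤ q x → ‖W s n x‖ ≤ δ) ∧
      (∀ᵐ x ∂m, Tendsto (fun n => W s n x) atTop (𝓝 1))) := by
  have hu2 : MemLp (fun x => ((Real.sqrt (q x) : ℝ) : ℂ)) 2 m := by
    have h1 : MemLp (fun x => Real.sqrt (q x)) 2 m := by
      rw [memLp_two_iff_integrable_sq hqm.sqrt.aestronglyMeasurable]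
      refine hqi.congr (Eventually.of_forall fun x => ?_)
      show q x = Real.sqrt (q x) ^ 2
      rw [Real.sq_sqrt (hq0 x)]
    exact h1.ofReal
  obtain ⟨F, hF, hFre⟩ := exists_re' (fun x => Real.sqrt (q x)) hu2
  have hre : ∀ᵐ x ∂m, 0 ≤ (F x).re := by
    filter_upwards [hFre] with x hx
    rw [hx]; exact Real.sqrt_nonneg _
  refine ⟨fun s n x => (1 + (((1 / ((n : ℝ) + 1) : ℝ)) : ℂ) * F x) ^ (((-s : ℝ)) : ℂ),
    fun s hs hs1 => ?_⟩
  have hε : ∀ n : ℕ, 0 < (1 / ((n : ℝ) + 1) : ℝ) := fun n => by positivity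
  have hzre : ∀ (n : ℕ) (x : Circ), (1 + (((1 / ((n : ℝ) + 1) : ℝ)) : ℂ) * F x).re
      = 1 + 1 / ((n : ℝ) + 1) * (F x).re := fun n x => by
    rw [Complex.add_re, Complex.one_re, Complex.re_ofReal_mul]
  have hn1 : ∀ n : ℕ, ∀ᵐ x ∂m,
      ‖(1 + (((1 / ((n : ℝ) + 1) : ℝ)) : ℂ) * F x) ^ (((-s : ℝ)) : ℂ)‖ ≤ 1 := by
    intro n
    filter_upwards [hre] with x hx
    have h0 : 0 ≤ 1 / ((n : ℝ) + 1) * (F x).re := mul_nonneg (hε n).le hx
    refine (pow_norm_le (by rw [hzre]; linarith) hs).trans ?_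
    rw [hzre]
    exact Real.rpow_le_one_of_one_le_of_nonpos (by linarith) (by linarith)
  refine ⟨fun n => ⟨?_, ?_⟩, hn1, fun n => ?_, fun n => ?_, fun n δ hδ => ?_, ?_⟩
  · refine memLp_of_bd (C := 1) ?_ (hn1 n)
    have h1 : Measurable (fun x => F x) := (Lp.stronglyMeasurable F).measurable
    exact (((h1.const_mul _).const_add _).pow_const _).aestronglyMeasurable
  · intro k hk
    exact pow_hinf hF hre (hε n) hs k hk
  · filter_upwards [hre] with x hx
    have h0 : 0 ≤ 1 / ((n : ℝ) + 1) * (F x).re := mul_nonneg (hε n).le hx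
    exact pow_re_ge (by rw [hzre]; linarith) hs hs1
  · filter_upwards [hre] with x hx
    have h0 : 0 ≤ 1 / ((n : ℝ) + 1) * (F x).re := mul_nonneg (hε n).le hx
    have hz0 : (1 + (((1 / ((n : ℝ) + 1) : ℝ)) : ℂ) * F x) ≠ 0 := by
      intro h
      have h2 := hzre n x
      rw [h, Complex.zero_re] at h2
      linarith
    show _ ^ _ ≠ (0 : ℂ)
    rw [Complex.cpow_def_of_ne_zero hz0]
    exact Complex.exp_ne_zero _
  · -- smallness
    have h1 : Tendsto (fun K : ℕ => (1 + 1 / ((n : ℝ) + 1) * Real.sqrt K) ^ (-s)) atTop (𝓝 0) := by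
      refine (tendsto_rpow_neg_atTop hs).comp ?_
      refine tendsto_atTop_add_const_left _ _ ?_
      refine Tendsto.const_mul_atTop (hε n) ?_
      exact Real.tendsto_sqrt_atTop.comp tendsto_natCast_atTop_atTop
    obtain ⟨K, hK⟩ := (h1.eventually (gt_mem_nhds hδ)).exists
    refine ⟨K, ?_⟩
    filter_upwards [hre, hFre] with x hx hx2 hKx
    have h0 : 0 ≤ 1 / ((n : ℝ) + 1) * (F x).re := mul_nonneg (hε n).le hx
    refine (pow_norm_le (by rw [hzre]; linarith) hs).trans (le_trans ?_ hK.le)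
    rw [hzre, hx2]
    apply Real.rpow_le_rpow_of_nonpos
    · have : 0 ≤ Real.sqrt K := Real.sqrt_nonneg _
      have := mul_nonneg (hε n).le this
      linarith
    · have := mul_le_mul_of_nonneg_left (Real.sqrt_le_sqrt hKx) (hε n).le
      linarith
    · linarith
  · filter_upwards with x
    have h1 : Tendsto (fun n : ℕ => (1 + (((1 / ((n : ℝ) + 1) : ℝ)) : ℂ) * F x)) atTop (𝓝 1) := by
      have h2 : Tendsto (fun n : ℕ => (((1 / ((n : ℝ) + 1) : ℝ)) : ℂ)) atTop (𝓝 ((0 : ℝ) : ℂ)) :=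
        (Complex.continuous_ofReal.tendsto _).comp tendsto_one_div_add_atTop_nhds_zero_nat
      have h3 := (h2.mul_const (F x)).const_add 1
      simpa using h3
    have h2 : ContinuousAt (fun z : ℂ => z ^ (((-s : ℝ)) : ℂ)) 1 :=
      continuousAt_cpow_const (by simp)
    have h3 := h2.tendsto.comp h1
    rw [Complex.one_cpow] at h3
    exact h3

/-- the uniqueness theorem, first coefficient -/
theorem uniq0 {X : L2} (hX : X ∈ H2) {E : Set Circ} (hE : MeasurableSet E) (hpos : 0 < m E)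
    (h0 : ∀ᵐ x ∂m, x ∈ E → X x = 0) : fourierCoeff X 0 = 0 := by
  have hv : Measurable (E.indicator fun _ => (1 : ℝ)) := measurable_const.indicator hE
  have hvb : ∀ x, |E.indicator (fun _ => (1 : ℝ)) x| ≤ 1 := by
    intro x
    by_cases hx : x ∈ E
    · rw [Set.indicator_of_mem hx, abs_one]
    · rw [Set.indicator_of_notMem hx, abs_zero]; exact zero_le_one
  obtain ⟨V, hV, hVre⟩ := exists_re _ hv hvb
  have h0m : (fourierLp 2 0 : L2) ∈ H2 := by
    intro k hk
    rw [← coefL_apply, coef_fourier, if_neg (by omega)]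
  set p : ℝ := m.real E with hp
  have hp0 : 0 < p := by
    rw [hp, Measure.real]
    exact ENNReal.toReal_pos hpos.ne' (measure_ne_top _ _)
  set c : ℂ := fourierCoeff V 0 with hc
  have hcre : c.re = p := by
    have h1 : c = ∫ x, V x ∂m := by
      rw [hc, fourierCoeff]
      refine integral_congr_ae (Eventually.of_forall fun x => ?_)
      simp
    have hVi : Integrable (fun x => V x) m := (Lp.memLp V).integrable (by norm_num)
    have h2 : (∫ x, V x ∂m).re = ∫ x, (V x).re ∂m := (integral_re hVi).symm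
    rw [h1, h2]
    have h3 : ∫ x, (V x).re ∂m = ∫ x, E.indicator (fun _ => (1 : ℝ)) x ∂m :=
      integral_congr_ae hVre
    rw [h3, integral_indicator hE]
    simp [hp]
  set Y : L2 := V - c • (fourierLp 2 0 : L2) with hY
  have hYm : Y ∈ H2 := H2.sub_mem hV (H2.smul_mem _ h0m)
  have hYae : ∀ᵐ x ∂m, Y x = V x - c := by
    filter_upwards [Lp.coeFn_sub V (c • (fourierLp 2 0 : L2)),
      Lp.coeFn_smul c (fourierLp 2 0 : L2), fourierLp_ae 0] with x e1 e2 e3
    rw [hY, e1, Pi.sub_apply, e2, Pi.smul_apply, e3, smul_eq_mul]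
    simp
  have hY0 : fourierCoeff Y 0 = 0 := by
    rw [← coefL_apply, hY, map_sub, map_smul, coef_fourier, coefL_apply]
    simp [hc]
  -- exponentials
  have hb : ∀ n : ℕ, ∃ b : L2, b ∈ H2 ∧ (∀ᵐ x ∂m, ‖b x‖ = Real.exp (n * ((V x).re - p))) ∧
      fourierCoeff b 0 = 1 := by
    intro n
    have h1 : (n : ℂ) • Y ∈ H2 := H2.smul_mem _ hYm
    have h2 : ∀ᵐ x ∂m, (((n : ℂ) • Y : L2) x).re = n * ((V x).re - p) := by
      filter_upwards [Lp.coeFn_smul (n : ℂ) Y, hYae] with x e1 e2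
      rw [e1, Pi.smul_apply, e2, smul_eq_mul]
      have : ((n : ℂ)) = ((n : ℝ) : ℂ) := by simp
      rw [this, Complex.re_ofReal_mul, Complex.sub_re, hcre]
    have h3 : ∀ᵐ x ∂m, (((n : ℂ) • Y : L2) x).re ≤ n := by
      filter_upwards [h2, hVre] with x e1 e2
      rw [e1, e2]
      have h4 := (abs_le.1 (hvb x)).2
      have h5 : (0 : ℝ) ≤ n := Nat.cast_nonneg n
      nlinarith
    obtain ⟨b, hb1, hb2, hb3⟩ := exp_hinf' h1 h3
    refine ⟨b, hb1, ?_, ?_⟩
    · filter_upwards [hb2, h2] with x e1 e2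
      rw [e1, Complex.norm_exp, e2]
    · rw [hb3, ← coefL_apply, map_smul, coefL_apply, hY0, smul_zero, Complex.exp_zero]
  choose b hb1 hb2 hb3 using hb
  have h00 : ‖(0 : ℂ)‖ < 1 := by simp
  have hprod : ∀ n, fourierCoeff X 0 = ∫ x, (pk 0 x : ℂ) * b n x * X x ∂m := by
    intro n
    rw [PM h00 (hb1 n) hX, ev_zero (hb1 n), ev_zero hX, hb3 n, one_mul]
  have hpk : ∀ x, pk 0 x = 1 := by
    intro x
    rw [pk_formula h00]
    simp
  have hXi : Integrable (fun x => ‖X x‖) m := ((Lp.memLp X).integrable (by norm_num)).norm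
  have hbound : ∀ n : ℕ, ‖fourierCoeff X 0‖ ≤ Real.exp (-(n * p)) * ∫ x, ‖X x‖ ∂m := by
    intro n
    rw [hprod n, ← integral_const_mul]
    refine norm_integral_le_of_norm_le (hXi.const_mul _) ?_
    filter_upwards [hb2 n, hVre, h0] with x e1 e2 e3
    rw [hpk, norm_mul, norm_mul, e1, e2]
    by_cases hx : x ∈ E
    · rw [e3 hx]; simp
    · rw [Set.indicator_of_notMem hx]
      simp
  by_contra hne
  have hpos2 : 0 < ‖fourierCoeff X 0‖ := norm_pos_iff.2 hne
  have hlim : Tendsto (fun n : ℕ => Real.exp (-(n * p)) * ∫ x, ‖X x‖ ∂m) atTop (𝓝 0) := by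
    have h1 : Tendsto (fun n : ℕ => (n : ℝ) * p) atTop atTop :=
      tendsto_natCast_atTop_atTop.atTop_mul_const hp0
    have h2 := (Real.tendsto_exp_neg_atTop_nhds_zero.comp h1).mul_const (∫ x, ‖X x‖ ∂m)
    rw [zero_mul] at h2
    exact h2
  have := ge_of_tendsto' hlim hbound
  linarith

/-- the uniqueness theorem -/
theorem uniq {X : L2} (hX : X ∈ H2) {E : Set Circ} (hE : MeasurableSet E) (hpos : 0 < m E)
    (h0 : ∀ᵐ x ∂m, x ∈ E → X x = 0) : X = 0 := by
  have hall : ∀ k : ℕ, fourierCoeff X (k : ℤ) = 0 := by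
    intro k
    induction k using Nat.strong_induction_on with
    | _ k ih =>
      set X' : L2 := mulOp (cI (fourier (-(k : ℤ)))) X with hX'
      have hae : ∀ᵐ x ∂m, X' x = fourier (-(k : ℤ)) x * X x := by
        filter_upwards [mulOp_ae (cI (fourier (-(k : ℤ)))) X, cI_ae (fourier (-(k : ℤ)))]
          with x e1 e2
        rw [hX', e1, e2]
      have hcoef : ∀ n : ℤ, fourierCoeff X' n = fourierCoeff X (n + k) := by
        intro n
        rw [fourierCoeff, fourierCoeff]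
        refine integral_congr_ae ?_
        filter_upwards [hae] with x hx
        rw [hx, smul_eq_mul, smul_eq_mul, ← mul_assoc, ← fourier_add]
        congr 3
        ring
      have hm : X' ∈ H2 := by
        intro n hn
        rw [hcoef]
        by_cases h1 : n + k < 0
        · exact hX _ h1
        · obtain ⟨j, hj⟩ := Int.eq_ofNat_of_zero_le (not_lt.1 h1)
          rw [hj]
          exact ih j (by omega)
      have h2 := uniq0 hm hE hpos (by
        filter_upwards [hae, h0] with x e1 e2 hx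
        rw [e1, e2 hx, mul_zero])
      rw [hcoef, zero_add] at h2
      exact h2
  apply L2_ext_coef
  intro n
  have hz : fourierCoeff (0 : L2) n = 0 := by rw [← coefL_apply, map_zero]
  rw [hz]
  by_cases hn : n < 0
  · exact hX n hn
  · obtain ⟨j, hj⟩ := Int.eq_ofNat_of_zero_le (not_lt.1 hn)
    rw [hj]
    exact hall j

end Pool.Agent.Q192.HX
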