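import Mathlib

/-!
Weak separation of the origin from a convex hull in finite dimension.
-/

set_option autoImplicit false

open scoped InnerProductSpace

namespace Pool.Agent.Q192.HX

theorem sep {V : Type*} [NormedAddCommGroup V] [InnerProductSpace ℝ V] [FiniteDimensional ℝ V]
    (R : Submodule ℝ V) (S : Set V) (hne : S.Nonempty) (hS : S ⊆ R) (h0 : (0 : V) ∉ convexHull ℝ S) :
    ∃ c ∈ R, c ≠ 0 ∧ ∀ z ∈ S, 0 ≤ ⟪c, z⟫_ℝ := by
  classical
  obtain ⟨z0, hz0⟩ := hne
  have hK : IsCompact ((R : Set V) ∩ Metric.sphere (0 : V) 1) :=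
    (isCompact_sphere (0 : V) 1).inter_left (Submodule.closed_of_finiteDimensional R)
  have h1 := hK.inter_iInter_nonempty (fun z : S => {c : V | 0 ≤ ⟪c, (z : V)⟫_ℝ})
    (fun z => isClosed_le continuous_const (continuous_id.inner continuous_const)) (by
    intro u
    set F : Set V := (((insert (⟨z0, hz0⟩ : S) u).image (fun z : S => (z : V)) : Finset V) : Set V) with hF
    have hFS : F ⊆ S := by
      intro x hx
      rw [hF, Finset.mem_coe, Finset.mem_image] at hx
      obtain ⟨z, _, rfl⟩ := hx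
      exact z.2
    have hFf : F.Finite := Finset.finite_toSet _
    have hmem : ∀ z ∈ u, (z : V) ∈ F := by
      intro z hz
      rw [hF, Finset.mem_coe, Finset.mem_image]
      exact ⟨z, Finset.mem_insert_of_mem hz, rfl⟩
    have hFne : (convexHull ℝ F).Nonempty := by
      refine ⟨z0, subset_convexHull ℝ F ?_⟩
      rw [hF, Finset.mem_coe, Finset.mem_image]
      exact ⟨⟨z0, hz0⟩, Finset.mem_insert_self _ _, rfl⟩
    have hcomp : IsCompact (convexHull ℝ F) := hFf.isCompact_convexHull ℝ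
    obtain ⟨p, hp, hp2⟩ := exists_norm_eq_iInf_of_complete_convex hFne hcomp.isComplete
      (convex_convexHull ℝ F) (0 : V)
    rw [norm_eq_iInf_iff_real_inner_le_zero (convex_convexHull ℝ F) hp] at hp2
    have hp0 : p ≠ 0 := by
      rintro rfl
      exact h0 (convexHull_mono hFS hp)
    have hpR : p ∈ R := by
      have : convexHull ℝ F ⊆ (R : Set V) := convexHull_min (hFS.trans hS) R.convex
      exact this hp
    have hpn : 0 < ‖p‖ := norm_pos_iff.2 hp0
    refine ⟨‖p‖⁻¹ • p, ⟨R.smul_mem _ hpR, ?_⟩, ?_⟩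
    · rw [mem_sphere_zero_iff_norm, norm_smul, norm_inv, norm_norm, inv_mul_cancel₀ hpn.ne']
    · simp only [Set.mem_iInter]
      intro z hz
      have h2 := hp2 z (subset_convexHull ℝ F (hmem z hz))
      rw [zero_sub, inner_neg_left, inner_sub_right, real_inner_self_eq_norm_sq] at h2
      show 0 ≤ ⟪‖p‖⁻¹ • p, (z : V)⟫_ℝ
      rw [real_inner_smul_left]
      have h3 : 0 ≤ ⟪p, (z : V)⟫_ℝ := by nlinarith [sq_nonneg ‖p‖]
      positivity)
  obtain ⟨c, ⟨hcR, hcn⟩, hc⟩ := h1
  rw [mem_sphere_zero_iff_norm] at hcn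
  refine ⟨c, hcR, ?_, ?_⟩
  · rintro rfl
    simp at hcn
  · intro z hz
    rw [Set.mem_iInter] at hc
    exact hc ⟨z, hz⟩

end Pool.Agent.Q192.HX
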