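import Mathlib
import Pool.Agent.Q192.HX.Defs
import Pool.Agent.Q192.HX.Hard2
import Pool.Agent.Q192.HX.Sep

/-!
Integral functionals; a function of modulus one on a set of positive measure is exposed.
-/

set_option autoImplicit false

open MeasureTheory Filter Topology
open scoped ENNReal ComplexConjugate InnerProductSpace

namespace Pool.Agent.Q192.HX

open Pool.Agent.H270R3.Cap

theorem ae_le_norm (g : Linf) : ∀ᵐ x ∂m, ‖g x‖ ≤ ‖g‖ := by
  have h1 : ∀ᵐ x ∂m, ‖g x‖ₑ ≤ eLpNorm g ∞ m := by
    rw [eLpNorm_exponent_top]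
    exact enorm_ae_le_eLpNormEssSup g m
  filter_upwards [h1] with x hx
  have h2 := ENNReal.toReal_mono (Lp.memLp g).2.ne hx
  rw [toReal_enorm] at h2
  rwa [Lp.norm_def]

theorem int_mul {k : Circ → ℂ} (hk : Integrable k m) {g : Circ → ℂ} (hg : MemLp g ∞ m) :
    Integrable (fun x => k x * g x) m := by
  obtain ⟨C, hC, hC2⟩ := memLp_bd hg
  refine (hk.bdd_mul (c := C) hg.1 hC2).congr (Eventually.of_forall fun x => ?_)
  show g x * k x = k x * g x
  ring

/-- the functional `g ↦ ∫ k g` -/
noncomputable def intI (k : Circ → ℂ) (hk : Integrable k m) : Linf →L[ℂ] ℂ :=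
  LinearMap.mkContinuous
    { toFun := fun g => ∫ x, k x * g x ∂m
      map_add' := fun f g => by
        rw [← integral_add (int_mul hk (Lp.memLp f)) (int_mul hk (Lp.memLp g))]
        refine integral_congr_ae ?_
        filter_upwards [Lp.coeFn_add f g] with x hx
        rw [hx, Pi.add_apply, mul_add]
      map_smul' := fun c f => by
        rw [RingHom.id_apply, smul_eq_mul, ← integral_const_mul]
        refine integral_congr_ae ?_
        filter_upwards [Lp.coeFn_smul c f] with x hx
        rw [hx, Pi.smul_apply, smul_eq_mul]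
        ring } (∫ x, ‖k x‖ ∂m) (fun g => by
      show ‖∫ x, k x * g x ∂m‖ ≤ _
      rw [← integral_mul_const]
      refine norm_integral_le_of_norm_le (hk.norm.mul_const _) ?_
      filter_upwards [ae_le_norm g] with x hx
      rw [norm_mul]
      exact mul_le_mul_of_nonneg_left hx (norm_nonneg _))

theorem intI_apply {k : Circ → ℂ} (hk : Integrable k m) (g : Linf) :
    intI k hk g = ∫ x, k x * g x ∂m := rfl

theorem intI_norm {k : Circ → ℂ} (hk : Integrable k m) : ‖intI k hk‖ ≤ ∫ x, ‖k x‖ ∂m :=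
  LinearMap.mkContinuous_norm_le _ (integral_nonneg fun _ => norm_nonneg _) _

/-- `H^∞` functions which agree on a set of positive measure are equal -/
theorem uniqI {f g : Linf} (hf : f ∈ Hinf) (hg : g ∈ Hinf) {E : Set Circ} (hE : MeasurableSet E)
    (hpos : 0 < m E) (h : ∀ᵐ x ∂m, x ∈ E → f x = g x) : f = g := by
  have hd : f - g ∈ Hinf := Hinf.sub_mem hf hg
  have hA : Ana (f - g : Linf) := ⟨Lp.memLp _, hd⟩
  have h2 := MemLp.coeFn_toLp (hA.1.mono_exponent (q := ∞) (p := 2) le_top)
  have h1 := uniq hA.toH2 hE hpos (by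
    filter_upwards [h2, Lp.coeFn_sub f g, h] with x e1 e2 e3 hx
    rw [e1, e2, Pi.sub_apply, e3 hx, sub_self])
  rw [h1] at h2
  rw [← sub_eq_zero]
  apply Lp.ext
  filter_upwards [h2, Lp.coeFn_zero ℂ 2 m, Lp.coeFn_zero ℂ ∞ m] with x e1 e2 e3
  rw [← e1, e2, e3]

theorem suff (Φ : Set (StrongDual ℂ Hinf)) (f : HPhi Φ) (h1 : ‖f‖ = 1)
    (h2 : 0 < m {x | ‖(f : Linf) x‖ = 1}) : Exposed f := by
  set F : Linf := (f : Linf) with hF
  have hFn : ‖F‖ = 1 := h1
  set E : Set Circ := {x | ‖F x‖ = 1} with hE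
  have hFm : Measurable (fun x => F x) := (Lp.stronglyMeasurable F).measurable
  have hEm : MeasurableSet E := hFm.norm (measurableSet_singleton 1)
  set p : ℝ := m.real E with hp
  have hp0 : 0 < p := by
    rw [hp, Measure.real]
    exact ENNReal.toReal_pos h2.ne' (measure_ne_top _ _)
  set k : Circ → ℂ := E.indicator (fun x => ((p⁻¹ : ℝ) : ℂ) * conj (F x)) with hk
  have hkn : ∀ x, ‖k x‖ = E.indicator (fun _ => p⁻¹) x := by
    intro x
    by_cases hx : x ∈ E
    · have hx' : ‖F x‖ = 1 := hx
      rw [hk, Set.indicator_of_mem hx, Set.indicator_of_mem hx, norm_mul, RCLike.norm_conj, hx',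
        mul_one, Complex.norm_real, Real.norm_of_nonneg (by positivity)]
    · rw [hk, Set.indicator_of_notMem hx, Set.indicator_of_notMem hx, norm_zero]
  have hkm : Measurable k :=
    ((Complex.continuous_conj.measurable.comp hFm).const_mul _).indicator hEm
  have hki : Integrable k m := by
    have hb : Integrable (E.indicator fun _ => p⁻¹) m := (integrable_const _).indicator hEm
    refine hb.mono' hkm.aestronglyMeasurable (Eventually.of_forall fun x => ?_)
    rw [hkn]
  have hkint : ∫ x, ‖k x‖ ∂m = 1 := by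
    simp only [hkn]
    rw [integral_indicator hEm]
    simp only [integral_const, smul_eq_mul]
    rw [measureReal_restrict_apply_univ, ← hp, mul_inv_cancel₀ hp0.ne']
  have hkF : intI k hki F = 1 := by
    rw [intI_apply]
    have h3 : ∫ x, k x * F x ∂m = ∫ x, ((‖k x‖ : ℝ) : ℂ) ∂m := by
      refine integral_congr_ae (Eventually.of_forall fun x => ?_)
      show k x * F x = ((‖k x‖ : ℝ) : ℂ)
      rw [hkn]
      by_cases hx : x ∈ E
      · have hx' : ‖F x‖ = 1 := hx
        rw [hk, Set.indicator_of_mem hx, Set.indicator_of_mem hx, mul_assoc, mul_comm (conj (F x)),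
          Complex.mul_conj, Complex.normSq_eq_norm_sq, hx']
        simp
      · rw [hk, Set.indicator_of_notMem hx, Set.indicator_of_notMem hx]; simp
    have h4 : ∫ x, ((‖k x‖ : ℝ) : ℂ) ∂m = ((∫ x, ‖k x‖ ∂m : ℝ) : ℂ) := integral_ofReal
    rw [h3, h4, hkint, Complex.ofReal_one]
  set φ : StrongDual ℂ (HPhi Φ) := (intI k hki).comp (HPhi Φ).subtypeL with hφ
  have hφa : ∀ y : HPhi Φ, φ y = intI k hki (y : Linf) := fun y => rfl
  have hnorm : ‖φ‖ = 1 := by
    apply le_antisymm
    · refine ContinuousLinearMap.opNorm_le_bound _ zero_le_one fun y => ?_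
      rw [hφa]
      refine ((intI k hki).le_opNorm _).trans ?_
      have h5 : ‖intI k hki‖ ≤ 1 := by
        have := intI_norm hki
        rwa [hkint] at this
      exact mul_le_mul_of_nonneg_right h5 (norm_nonneg _)
    · have h5 := φ.le_opNorm f
      rw [h1, mul_one, hφa, ← hF, hkF, norm_one] at h5
      exact h5
  refine ⟨h1.le, φ, hnorm, ?_⟩
  ext y
  simp only [Set.mem_ofPred_eq, Set.mem_singleton_iff]
  constructor
  · rintro ⟨hy1, hy2⟩
    set Y : Linf := (y : Linf) with hY
    have hYn : ‖Y‖ ≤ 1 := hy1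
    have hYb : ∀ᵐ x ∂m, ‖Y x‖ ≤ 1 := by
      filter_upwards [ae_le_norm Y] with x hx
      exact hx.trans hYn
    have hY2 : ∫ x, k x * Y x ∂m = 1 := hy2
    -- the real part
    have hkY : Integrable (fun x => k x * Y x) m := int_mul hki (Lp.memLp Y)
    have h5 : ∫ x, (‖k x‖ - (k x * Y x).re) ∂m = 0 := by
      have h6 : ∫ x, (k x * Y x).re ∂m = 1 := by
        have h7 := integral_re hkY
        have h8 : ∫ x, RCLike.re (k x * Y x) ∂m = ∫ x, (k x * Y x).re ∂m := rfl
        rw [← h8, h7, hY2]
        exact Complex.one_re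
      have h9 : ∫ x, (‖k x‖ - (k x * Y x).re) ∂m = (∫ x, ‖k x‖ ∂m) - ∫ x, (k x * Y x).re ∂m :=
        integral_sub hki.norm hkY.re
      rw [h9, hkint, h6, sub_self]
    have h6 : 0 ≤ᵐ[m] fun x => ‖k x‖ - (k x * Y x).re := by
      filter_upwards [hYb] with x hx
      have h7 : (k x * Y x).re ≤ ‖k x‖ * 1 := by
        refine (Complex.re_le_norm _).trans ?_
        rw [norm_mul]
        exact mul_le_mul_of_nonneg_left hx (norm_nonneg _)
      show 0 ≤ ‖k x‖ - (k x * Y x).re
      linarith
    have h7 := (integral_eq_zero_iff_of_nonneg_ae h6 (hki.norm.sub hkY.re)).1 h5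
    have h8 : ∀ᵐ x ∂m, x ∈ E → Y x = F x := by
      filter_upwards [h7, hYb] with x e1 e2 hx
      have hx' : ‖F x‖ = 1 := hx
      have e3 : ‖k x‖ - (k x * Y x).re = 0 := e1
      have e4 : ‖k x‖ = p⁻¹ := by rw [hkn, Set.indicator_of_mem hx]
      have e5 : k x = ((p⁻¹ : ℝ) : ℂ) * conj (F x) := by rw [hk, Set.indicator_of_mem hx]
      rw [e4, e5, mul_assoc, Complex.re_ofReal_mul] at e3
      have e6 : (conj (F x) * Y x).re = 1 := by
        have : p⁻¹ * (1 - (conj (F x) * Y x).re) = 0 := by linarith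
        rcases mul_eq_zero.1 this with h | h
        · exact absurd h (inv_ne_zero hp0.ne')
        · linarith
      have e7 : ‖conj (F x) * Y x‖ ≤ 1 := by
        rw [norm_mul, RCLike.norm_conj, hx', one_mul]; exact e2
      have e8 : conj (F x) * Y x = 1 := by
        have h9 := Complex.sq_norm_sub_sq_re (conj (F x) * Y x)
        rw [e6] at h9
        have h10 : (conj (F x) * Y x).im ^ 2 ≤ 0 := by
          have : ‖conj (F x) * Y x‖ ^ 2 ≤ 1 := pow_le_one₀ (norm_nonneg _) e7
          linarith
        have h11 : (conj (F x) * Y x).im = 0 := by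
          have := le_antisymm h10 (sq_nonneg _)
          exact pow_eq_zero_iff (two_ne_zero) |>.1 this
        exact Complex.ext e6 h11
      have e9 : F x * conj (F x) = 1 := by
        rw [Complex.mul_conj, Complex.normSq_eq_norm_sq, hx']; simp
      calc Y x = (F x * conj (F x)) * Y x := by rw [e9, one_mul]
        _ = F x * (conj (F x) * Y x) := by ring
        _ = F x := by rw [e8, mul_one]
    have h9 : Y = F := uniqI y.2.choose f.2.choose hEm h2 h8
    exact Subtype.ext h9
  · rintro rfl
    exact ⟨h1.le, hkF⟩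

end Pool.Agent.Q192.HX
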