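import Mathlib
import Pool.Agent.Q192.HX.Suff

/-!
An exposed point has modulus one on a set of positive measure.
-/

set_option autoImplicit false

open MeasureTheory Filter Topology
open scoped ENNReal ComplexConjugate InnerProductSpace

namespace Pool.Agent.Q192.HX

open Pool.Agent.H270R3.Cap

/-- the limit along the weights -/
theorem limW {k : Circ → ℂ} (hk : Integrable k m) {g : Circ → ℂ} (hg : MemLp g ∞ m)
    {W : ℕ → Circ → ℂ} (hW : ∀ n, MemLp (W n) ∞ m) (h1 : ∀ n, ∀ᵐ x ∂m, ‖W n x‖ ≤ 1)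
    (h2 : ∀ᵐ x ∂m, Tendsto (fun n => W n x) atTop (𝓝 1)) :
    Tendsto (fun n => ∫ x, k x * (W n x * g x) ∂m) atTop (𝓝 (∫ x, k x * g x ∂m)) := by
  have hkg := int_mul hk hg
  refine tendsto_integral_of_dominated_convergence (fun x => ‖k x * g x‖) (fun n => ?_) hkg.norm
    (fun n => ?_) ?_
  · exact (int_mul hk (memLp_mul hg (hW n))).1
  · filter_upwards [h1 n] with x hx
    have : k x * (W n x * g x) = W n x * (k x * g x) := by ring
    rw [this, norm_mul]
    exact mul_le_of_le_one_left (norm_nonneg _) hx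
  · filter_upwards [h2] with x hx
    have h3 := (hx.mul_const (g x)).const_mul (k x)
    rw [one_mul] at h3
    exact h3

/-- class of an analytic bounded function -/
noncomputable def mk {G : Circ → ℂ} (h : Ana G) : Linf := h.1.toLp G

theorem mk_mem {G : Circ → ℂ} (h : Ana G) : mk h ∈ Hinf := fun n hn =>
  (congrFun (fourierCoeff_congr_ae h.1.coeFn_toLp) n).trans (h.2 n hn)

theorem mk_ae {G : Circ → ℂ} (h : Ana G) : mk h =ᵐ[m] G := h.1.coeFn_toLp

theorem ana_of_mem {g : Linf} (h : g ∈ Hinf) : Ana g := ⟨Lp.memLp g, h⟩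

theorem aux_div (r c t : ℝ) (hc : 0 < c) : t * r = r / c * (c * t) := by
  field_simp

theorem map_rsmul (φ : Linf →L[ℂ] ℂ) (a : ℝ) (g : Linf) : φ (a • g) = (a : ℂ) * φ g := by
  have h : a • g = (a : ℂ) • g := (Complex.coe_smul a g).symm
  rw [h, map_smul, smul_eq_mul]

theorem key_ineq {w : ℂ} {r c : ℝ} (hr0 : 0 ≤ r) (hr : r < 1) (hc : (1 + 2 * r - r ^ 2) / 2 ≤ c)
    (hw : ‖w‖ ≤ 1) (hre : c * ‖w‖ ≤ w.re) : ‖1 - w‖ + r * ‖w‖ ≤ 1 := by
  have h0 : 0 ≤ 1 - r * ‖w‖ := by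
    have := norm_nonneg w
    nlinarith
  have h1 : ‖1 - w‖ ^ 2 ≤ (1 - r * ‖w‖) ^ 2 := by
    have e1 : ‖1 - w‖ ^ 2 = 1 - 2 * w.re + ‖w‖ ^ 2 := by
      rw [← Complex.normSq_eq_norm_sq, ← Complex.normSq_eq_norm_sq, Complex.normSq_apply,
        Complex.normSq_apply]
      simp only [Complex.sub_re, Complex.one_re, Complex.sub_im, Complex.one_im]
      ring
    rw [e1]
    have hn := norm_nonneg w
    have h2 : ‖w‖ * (1 - ‖w‖) * (1 - r ^ 2) ≥ 0 := by
      have : 0 ≤ 1 - r ^ 2 := by nlinarith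
      have h3 : 0 ≤ 1 - ‖w‖ := by linarith
      positivity
    have h3 : (1 + 2 * r - r ^ 2) / 2 * ‖w‖ ≤ w.re :=
      le_trans (mul_le_mul_of_nonneg_right hc hn) hre
    nlinarith
  have h2 := abs_le_of_sq_le_sq h1 h0
  have h3 := (abs_le.1 h2).2
  linarith

theorem nec (Φ : Set (StrongDual ℂ Hinf)) (hΦ : Φ.Finite) (f : HPhi Φ) (hf : Exposed f) :
    ‖f‖ = 1 ∧ 0 < m {x | ‖(f : Linf) x‖ = 1} := by
  classical
  have : Fintype Φ := hΦ.fintype
  obtain ⟨hf1, φ0, hφ0, hset⟩ := hf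
  have hfm : f ∈ {y : HPhi Φ | ‖y‖ ≤ 1 ∧ φ0 y = 1} := by rw [hset]; exact Set.mem_singleton f
  have hφf : φ0 f = 1 := hfm.2
  have hfn : ‖f‖ = 1 := by
    apply le_antisymm hf1
    have h1 := φ0.le_opNorm f
    rwa [hφf, norm_one, hφ0, one_mul] at h1
  refine ⟨hfn, ?_⟩
  by_contra hcon
  have hzero : m {x | ‖(f : Linf) x‖ = 1} = 0 := by simpa using hcon
  set F : Linf := (f : Linf) with hF
  have hFn : ‖F‖ = 1 := hfn
  have hFH : F ∈ Hinf := f.2.choose
  have hFΦ : ∀ φ ∈ Φ, φ ⟨F, hFH⟩ = 0 := f.2.choose_spec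
  have hFA : Ana F := ana_of_mem hFH
  have hFb : ∀ᵐ x ∂m, ‖F x‖ ≤ 1 := by
    filter_upwards [ae_le_norm F] with x hx
    rwa [hFn] at hx
  have hFm : Measurable (fun x => F x) := (Lp.stronglyMeasurable F).measurable
  obtain ⟨φ, hφ, hφn⟩ := exists_extension_norm_eq (HPhi Φ) φ0
  rw [hφ0] at hφn
  have hex : ∀ j : Φ, ∃ ψ : Linf →L[ℂ] ℂ, ∀ g : Hinf, ψ g = (j : StrongDual ℂ Hinf) g := fun j => by
    obtain ⟨ψ, h1, _⟩ := exists_extension_norm_eq Hinf (j : StrongDual ℂ Hinf)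
    exact ⟨ψ, h1⟩
  choose ψ hψ using hex
  -- the sets `E`
  set E : ℕ → Set Circ := fun n => {x | 1 - 1 / ((n : ℝ) + 1) < ‖F x‖} with hE
  have hEm : ∀ n, MeasurableSet (E n) := fun n => measurableSet_lt measurable_const hFm.norm
  have hEanti : Antitone E := by
    intro i j hij x hx
    have hx' : 1 - 1 / ((j : ℝ) + 1) < ‖F x‖ := hx
    show 1 - 1 / ((i : ℝ) + 1) < ‖F x‖
    have h1 : (1 : ℝ) / ((j : ℝ) + 1) ≤ 1 / ((i : ℝ) + 1) :=
      one_div_le_one_div_of_le (by positivity) (by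
        have : (i : ℝ) ≤ j := by exact_mod_cast hij
        linarith)
    linarith
  have hE0 : Tendsto (fun n => m (E n)) atTop (𝓝 0) := by
    have h1 := tendsto_measure_iInter_atTop (μ := m) (fun n => (hEm n).nullMeasurableSet) hEanti
      ⟨0, measure_ne_top _ _⟩
    have h2 : m (⋂ n, E n) = 0 := by
      have hsub : (⋂ n, E n) ⊆ {x | ‖F x‖ = 1} ∪ {x | ¬ ‖F x‖ ≤ 1} := by
        intro x hx
        rw [Set.mem_iInter] at hx
        by_cases h3 : ‖F x‖ ≤ 1
        · left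
          apply le_antisymm h3
          have h4 : Tendsto (fun n : ℕ => 1 - 1 / ((n : ℝ) + 1)) atTop (𝓝 (1 - 0)) :=
            tendsto_one_div_add_atTop_nhds_zero_nat.const_sub 1
          rw [sub_zero] at h4
          exact le_of_tendsto' h4 fun n => (hx n).le
        · right; exact h3
      apply measure_mono_null hsub
      rw [measure_union_null_iff]
      exact ⟨hzero, ae_iff.1 hFb⟩
    rw [h2] at h1
    exact h1
  -- singular functionals
  have hsing : ∀ φ' : Linf →L[ℂ] ℂ, ∀ c : ℂ, ‖c‖ = 1 → ‖φ'‖ ≤ 1 → φ' (c • F) = 1 → Reg φ' 0 E := by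
    intro φ' c hc hφ' h1
    refine ⟨integrable_zero _ _ _, hEm, fun k g hg hg0 => ?_⟩
    have h2 : ap φ' (c • F : Linf) = 1 := by rw [ap_coe]; exact h1
    have h3 : ∀ᵐ x ∂m, ‖(c • F : Linf) x‖ = ‖F x‖ := by
      filter_upwards [Lp.coeFn_smul c F] with x hx
      rw [hx, Pi.smul_apply, norm_smul, hc, one_mul]
    have h4 := sing φ' hφ' (Lp.memLp (c • F)) (by
      filter_upwards [h3, hFb] with x e1 e2
      rw [e1]; exact e2) h2 (δ := 1 / ((k : ℝ) + 1)) (by positivity) hg (by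
      filter_upwards [h3, hg0] with x e1 e2 e3
      rw [e1]
      by_contra h5
      push Not at h5
      exact e3 (e2 h5))
    rw [h4]
    simp
  have hφreg : Reg φ 0 E := hsing φ 1 norm_one hφn.le (by
    rw [one_smul, hF, hφ f, hφf])
  -- densities
  have hex2 := fun j : Φ => yosida (ψ j)
  choose h D hreg hDanti hD0 using hex2
  set A : ℕ → Set Circ := fun n => E n ∪ ⋃ j : Φ, D j n with hA
  have hAm : ∀ n, MeasurableSet (A n) := fun n =>
    (hEm n).union (MeasurableSet.iUnion fun j => (hreg j).meas n)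
  have hAanti : Antitone A := fun i j hij =>
    Set.union_subset_union (hEanti hij) (Set.iUnion_mono fun k => hDanti k hij)
  have hA0 : Tendsto (fun n => m (A n)) atTop (𝓝 0) := by
    have h1 : ∀ j : Φ, Tendsto (fun n => m (D j n)) atTop (𝓝 0) := by
      intro j
      have h2 := (ENNReal.tendsto_toReal_iff (f := fun n => m (D j n)) (x := 0)
        (fun n => measure_ne_top _ _) ENNReal.zero_ne_top).1 (by
          simpa [Measure.real] using hD0 j)
      exact h2
    have h2 : Tendsto (fun n => m (E n) + ∑ j : Φ, m (D j n)) atTop (𝓝 (0 + ∑ j : Φ, 0)) :=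
      hE0.add (tendsto_finsetSum _ fun j _ => h1 j)
    simp only [Finset.sum_const_zero, add_zero] at h2
    refine tendsto_of_tendsto_of_tendsto_of_le_of_le tendsto_const_nhds h2 (fun n => zero_le)
      fun n => ?_
    refine (measure_union_le _ _).trans (add_le_add le_rfl ?_)
    exact measure_iUnion_fintype_le _ _
  obtain ⟨q, hqm, hq0, hqi, hq⟩ := exists_q hAm hAanti hA0
  obtain ⟨W, hWall⟩ := exists_weights q hqm hq0 hqi
  have hsmall : ∀ s, 0 < s → s ≤ 1 → ∀ n, ∀ ε : ℝ, 0 < ε → ∃ k, ∀ᵐ x ∂m, x ∈ A k → ‖W s n x‖ ≤ ε := by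
    intro s hs hs1 n ε hε
    obtain ⟨K, hK⟩ := (hWall s hs hs1).2.2.2.2.1 n ε hε
    obtain ⟨k, hk⟩ := hq K
    refine ⟨k, ?_⟩
    filter_upwards [hK, hk] with x e1 e2 hx
    exact e1 (e2 hx)
  -- action of singular functionals
  have hsW : ∀ φ' : Linf →L[ℂ] ℂ, Reg φ' 0 E → ∀ s, 0 < s → s ≤ 1 → ∀ n, ∀ g : Circ → ℂ,
      MemLp g ∞ m → ap φ' (fun x => W s n x * g x) = 0 := by
    intro φ' H s hs hs1 n g hg
    rw [H.weight ((hWall s hs hs1).1 n).1 (fun ε hε => by
      obtain ⟨k, hk⟩ := hsmall s hs hs1 n ε hε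
      refine ⟨k, ?_⟩
      filter_upwards [hk] with x hx hxE
      exact hx (Or.inl hxE)) hg]
    simp
  have hψW : ∀ j : Φ, ∀ s, 0 < s → s ≤ 1 → ∀ n, ∀ g : Circ → ℂ, MemLp g ∞ m →
      ap (ψ j) (fun x => W s n x * g x) = ∫ x, h j x * (W s n x * g x) ∂m := by
    intro j s hs hs1 n g hg
    exact (hreg j).weight ((hWall s hs hs1).1 n).1 (fun ε hε => by
      obtain ⟨k, hk⟩ := hsmall s hs hs1 n ε hε
      refine ⟨k, ?_⟩
      filter_upwards [hk] with x hx hxE
      exact hx (Or.inr (Set.mem_iUnion.2 ⟨j, hxE⟩))) hg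
  -- the linear map `T`
  let T : Hinf →ₗ[ℂ] EuclideanSpace ℂ Φ :=
    (WithLp.linearEquiv 2 ℂ (Φ → ℂ)).symm.toLinearMap ∘ₗ
      (LinearMap.pi fun j : Φ => (intI (h j) (hreg j).int).toLinearMap ∘ₗ Hinf.subtype)
  have hT : ∀ (g : Hinf) (j : Φ), T g j = ∫ x, h j x * (g : Linf) x ∂m := fun g j => rfl
  -- admissible perturbations
  set Gs : Set Hinf := {G | ∃ (s : ℝ) (n : ℕ) (r : ℝ) (b : Linf), b ∈ Hinf ∧ 0 < s ∧ s ≤ 1 ∧
    0 ≤ r ∧ r < 1 ∧ (1 + 2 * r - r ^ 2) / 2 ≤ Real.cos (s * (Real.pi / 2)) ∧ ‖b‖ ≤ r ∧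
    (G : Linf) =ᵐ[m] fun x => W s n x * (b x - F x)} with hGs
  -- existence of perturbations
  have hGex : ∀ (s : ℝ) (n : ℕ) (b : Linf), b ∈ Hinf → 0 < s → s ≤ 1 → ∃ G : Hinf,
      (G : Linf) =ᵐ[m] fun x => W s n x * (b x - F x) := by
    intro s n b hb hs hs1
    have h1 : Ana (b - F : Linf) := ana_of_mem (Hinf.sub_mem hb hFH)
    have h2 := ((hWall s hs hs1).1 n).mul h1
    refine ⟨⟨mk h2, mk_mem h2⟩, ?_⟩
    show mk h2 =ᵐ[m] _
    filter_upwards [mk_ae h2, Lp.coeFn_sub b F] with x e1 e2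
    rw [e1, e2, Pi.sub_apply]
  -- the convex set of properties
  set Q : Set Hinf := {G | ‖F + (G : Linf)‖ ≤ 1 ∧ φ (G : Linf) = 0 ∧
    (∀ j : Φ, ψ j (G : Linf) = T G j) ∧
    ∃ (ρ : ℝ) (P R : Circ → ℂ), 0 ≤ ρ ∧ ρ < 1 ∧ (∀ᵐ x ∂m, (G : Linf) x = R x - P x * F x) ∧
      (∀ᵐ x ∂m, ‖R x‖ ≤ ρ * (P x).re) ∧ ∀ᵐ x ∂m, 0 < (P x).re} with hQ
  have hQconv : Convex ℝ Q := by
    rintro G1 ⟨a1, a2, a3, ρ1, P1, R1, a4, a5, a6, a7, a8⟩ G2 ⟨b1, b2, b3, ρ2, P2, R2, b4, b5, b6, b7, b8⟩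
      α β hα hβ hαβ
    have hco : ((α • G1 + β • G2 : Hinf) : Linf) = α • (G1 : Linf) + β • (G2 : Linf) := rfl
    refine ⟨?_, ?_, fun j => ?_, max ρ1 ρ2, fun x => (α : ℂ) * P1 x + (β : ℂ) * P2 x,
      fun x => (α : ℂ) * R1 x + (β : ℂ) * R2 x, le_max_of_le_left a4, max_lt a5 b5, ?_, ?_, ?_⟩
    · rw [hco]
      have e1 : F + (α • (G1 : Linf) + β • (G2 : Linf))
          = α • (F + (G1 : Linf)) + β • (F + (G2 : Linf)) := by
        rw [smul_add, smul_add]
        have : F = α • F + β • F := by rw [← add_smul, hαβ, one_smul]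
        nth_rewrite 1 [this]
        abel
      rw [e1]
      refine (norm_add_le _ _).trans ?_
      rw [norm_smul, norm_smul, Real.norm_of_nonneg hα, Real.norm_of_nonneg hβ]
      calc α * ‖F + (G1 : Linf)‖ + β * ‖F + (G2 : Linf)‖ ≤ α * 1 + β * 1 :=
            add_le_add (mul_le_mul_of_nonneg_left a1 hα) (mul_le_mul_of_nonneg_left b1 hβ)
        _ = 1 := by rw [mul_one, mul_one, hαβ]
    · rw [hco, map_add]
      rw [map_rsmul, map_rsmul, a2, b2, mul_zero, mul_zero, add_zero]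
    · rw [hco, map_add]
      have e3 : T (α • G1 + β • G2) j = (α : ℂ) * T G1 j + (β : ℂ) * T G2 j := by
        have e4 : (α • G1 + β • G2 : Hinf) = (α : ℂ) • G1 + (β : ℂ) • G2 := rfl
        rw [e4, map_add, map_smul, map_smul]
        rfl
      rw [map_rsmul, map_rsmul, e3, a3, b3]
    · have e0 : ∀ᵐ x ∂m, ((α • G1 + β • G2 : Hinf) : Linf) x
          = (α : ℂ) * (G1 : Linf) x + (β : ℂ) * (G2 : Linf) x := by
        rw [hco]
        filter_upwards [Lp.coeFn_add (α • (G1 : Linf)) (β • (G2 : Linf)),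
          Lp.coeFn_smul α (G1 : Linf), Lp.coeFn_smul β (G2 : Linf)] with x e1 e2 e3
        rw [e1, Pi.add_apply, e2, e3, Pi.smul_apply, Pi.smul_apply, Complex.real_smul,
          Complex.real_smul]
      filter_upwards [e0, a6, b6] with x e1 e2 e3
      rw [e1, e2, e3]
      ring
    · filter_upwards [a7, b7, a8, b8] with x e1 e2 e3 e4
      refine (norm_add_le _ _).trans ?_
      rw [norm_mul, norm_mul, Complex.norm_real, Complex.norm_real, Real.norm_of_nonneg hα,
        Real.norm_of_nonneg hβ, Complex.add_re, Complex.re_ofReal_mul, Complex.re_ofReal_mul,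
        mul_add]
      have e5 : ‖R1 x‖ ≤ max ρ1 ρ2 * (P1 x).re :=
        e1.trans (mul_le_mul_of_nonneg_right (le_max_left _ _) e3.le)
      have e6 : ‖R2 x‖ ≤ max ρ1 ρ2 * (P2 x).re :=
        e2.trans (mul_le_mul_of_nonneg_right (le_max_right _ _) e4.le)
      have e7 := mul_le_mul_of_nonneg_left e5 hα
      have e8 := mul_le_mul_of_nonneg_left e6 hβ
      linarith
    · filter_upwards [a8, b8] with x e3 e4
      rw [Complex.add_re, Complex.re_ofReal_mul, Complex.re_ofReal_mul]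
      rcases hα.eq_or_lt with h0 | h0
      · rw [← h0] at hαβ ⊢
        rw [zero_add] at hαβ
        rw [hαβ]
        linarith
      · have h9 : 0 ≤ β * (P2 x).re := by positivity
        have h10 : 0 < α * (P1 x).re := by positivity
        linarith
  have hGQ : Gs ⊆ Q := by
    rintro G ⟨s, n, r, b, hb, hs, hs1, hr0, hr1, hcos, hbr, hG⟩
    obtain ⟨w1, w2, w3, w4, w5, w6⟩ := hWall s hs hs1
    have hmb : MemLp (fun x => b x - F x) ∞ m := (Lp.memLp b).sub (Lp.memLp F)
    have hbb : ∀ᵐ x ∂m, ‖b x‖ ≤ r := by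
      filter_upwards [ae_le_norm b] with x hx
      exact hx.trans hbr
    have hcpos : r < Real.cos (s * (Real.pi / 2)) := by
      refine lt_of_lt_of_le ?_ hcos
      nlinarith
    have hcle : Real.cos (s * (Real.pi / 2)) ≤ 1 := Real.cos_le_one _
    refine ⟨?_, ?_, fun j => ?_, r / Real.cos (s * (Real.pi / 2)), W s n,
      fun x => W s n x * b x, div_nonneg hr0 (by linarith), ?_, ?_, ?_, ?_⟩
    · have h1 : ∀ᵐ x ∂m, ‖(F + (G : Linf)) x‖ ≤ 1 := by
        filter_upwards [Lp.coeFn_add F (G : Linf), hG, hbb, hFb, w2 n, w3 n] with x e1 e2 e3 e4 e5 e6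
        rw [e1, Pi.add_apply, e2]
        have e7 : F x + W s n x * (b x - F x) = (1 - W s n x) * F x + W s n x * b x := by ring
        rw [e7]
        refine (norm_add_le _ _).trans ?_
        rw [norm_mul, norm_mul]
        have e8 := key_ineq hr0 hr1 hcos e5 e6
        have e9 : ‖1 - W s n x‖ * ‖F x‖ ≤ ‖1 - W s n x‖ :=
          mul_le_of_le_one_right (norm_nonneg _) e4
        have e10 : ‖W s n x‖ * ‖b x‖ ≤ r * ‖W s n x‖ := by
          rw [mul_comm]
          exact mul_le_mul_of_nonneg_right e3 (norm_nonneg _)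
        linarith
      have h2 := Lp.norm_le_of_ae_bound zero_le_one h1
      simpa using h2
    · rw [← ap_coe, ap_congr φ hG]
      exact hsW φ hφreg s hs hs1 n _ hmb
    · rw [← ap_coe, ap_congr (ψ j) hG, hψW j s hs hs1 n _ hmb, hT]
      refine integral_congr_ae ?_
      filter_upwards [hG] with x hx
      rw [hx]
    · rw [div_lt_one (by linarith)]; exact hcpos
    · filter_upwards [hG] with x hx
      rw [hx]; ring
    · filter_upwards [hbb, w3 n] with x e1 e2
      have h0 : 0 < Real.cos (s * (Real.pi / 2)) := by linarith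
      rw [norm_mul]
      calc ‖W s n x‖ * ‖b x‖ ≤ ‖W s n x‖ * r := mul_le_mul_of_nonneg_left e1 (norm_nonneg _)
        _ = r / Real.cos (s * (Real.pi / 2)) * (Real.cos (s * (Real.pi / 2)) * ‖W s n x‖) :=
            aux_div r _ _ h0
        _ ≤ r / Real.cos (s * (Real.pi / 2)) * (W s n x).re :=
            mul_le_mul_of_nonneg_left e2 (by positivity)
    · filter_upwards [w3 n, w4 n] with x e1 e2
      have h0 : 0 < Real.cos (s * (Real.pi / 2)) := by linarith
      have h1 : 0 < ‖W s n x‖ := norm_pos_iff.2 e2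
      have h2 : 0 < Real.cos (s * (Real.pi / 2)) * ‖W s n x‖ := by positivity
      linarith
  -- a good choice of `s` for given `r`
  have hschoice : ∀ r : ℝ, 0 ≤ r → r < 1 → ∃ s : ℝ, 0 < s ∧ s ≤ 1 ∧
      (1 + 2 * r - r ^ 2) / 2 ≤ Real.cos (s * (Real.pi / 2)) := by
    intro r hr0 hr1
    refine ⟨(1 - r) / 2, by linarith, by linarith, ?_⟩
    have h1 := Real.one_sub_sq_div_two_le_cos (x := (1 - r) / 2 * (Real.pi / 2))
    have h2 : 0 < Real.pi := Real.pi_pos
    have h3 : Real.pi ≤ 4 := Real.pi_le_four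
    have h4 : (1 - r) / 2 * (Real.pi / 2) ≤ 1 - r := by nlinarith
    have h5 : 0 ≤ (1 - r) / 2 * (Real.pi / 2) := by
      have : 0 < 1 - r := by linarith
      positivity
    nlinarith
  by_cases h0 : (0 : EuclideanSpace ℂ Φ) ∈ convexHull ℝ (T '' Gs)
  · -- a perturbation satisfying the constraints
    have h1 : convexHull ℝ (T '' Gs) = T '' convexHull ℝ Gs :=
      ((T.restrictScalars ℝ).image_convexHull Gs).symm
    rw [h1] at h0
    obtain ⟨G, hG, hTG⟩ := h0
    have hGQ' : G ∈ Q := convexHull_min hGQ hQconv hG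
    obtain ⟨q1, q2, q3, ρ, P, R, q4, q5, q6, q7, q8⟩ := hGQ'
    have hmem : F + (G : Linf) ∈ HPhi Φ := by
      refine ⟨Hinf.add_mem hFH G.2, fun φ' hφ' => ?_⟩
      have e1 : (⟨F + (G : Linf), Hinf.add_mem hFH G.2⟩ : Hinf) = ⟨F, hFH⟩ + G := rfl
      rw [e1, map_add, hFΦ φ' hφ', zero_add]
      have e2 := hψ ⟨φ', hφ'⟩ G
      have e3 := q3 ⟨φ', hφ'⟩
      rw [hTG] at e3
      rw [← e2, e3]
      rfl
    have hy : (⟨F + (G : Linf), hmem⟩ : HPhi Φ) ∈ {y : HPhi Φ | ‖y‖ ≤ 1 ∧ φ0 y = 1} := by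
      refine ⟨q1, ?_⟩
      rw [← hφ ⟨F + (G : Linf), hmem⟩]
      show φ (F + (G : Linf)) = 1
      rw [map_add, q2, add_zero, hF, hφ f, hφf]
    rw [hset, Set.mem_singleton_iff] at hy
    have h2 : F + (G : Linf) = F := congrArg Subtype.val hy
    have h3 : (G : Linf) = 0 := by
      have := h2
      rwa [add_eq_left] at this
    have h4 : ∀ᵐ x ∂m, ‖F x‖ ≤ ρ := by
      have h5 : ∀ᵐ x ∂m, (G : Linf) x = 0 := by
        rw [h3]
        filter_upwards [Lp.coeFn_zero ℂ ∞ m] with x hx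
        rw [hx]; rfl
      filter_upwards [h5, q6, q7, q8] with x e1 e2 e3 e4
      rw [e1] at e2
      have e5 : R x = P x * F x := (sub_eq_zero.1 e2.symm)
      rw [e5, norm_mul] at e3
      have e6 : (P x).re ≤ ‖P x‖ := Complex.re_le_norm _
      have e7 : (P x).re * ‖F x‖ ≤ (P x).re * ρ := by
        calc (P x).re * ‖F x‖ ≤ ‖P x‖ * ‖F x‖ := mul_le_mul_of_nonneg_right e6 (norm_nonneg _)
          _ ≤ ρ * (P x).re := e3
          _ = (P x).re * ρ := mul_comm _ _
      exact le_of_mul_le_mul_left e7 e4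
    have h5 : ‖F‖ ≤ ρ := by
      have := Lp.norm_le_of_ae_bound q4 h4
      simpa using this
    rw [hFn] at h5
    linarith
  · -- separation
    have hne : (T '' Gs).Nonempty := by
      obtain ⟨s, hs, hs1, hcos⟩ := hschoice 0 le_rfl zero_lt_one
      obtain ⟨G, hG⟩ := hGex s 0 0 Hinf.zero_mem hs hs1
      exact ⟨T G, G, ⟨s, 0, 0, 0, Hinf.zero_mem, hs, hs1, le_rfl, zero_lt_one, hcos,
        by rw [norm_zero], hG⟩, rfl⟩
    obtain ⟨c, hcR, hc0, hc⟩ := sep (V := EuclideanSpace ℂ Φ)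
      ((LinearMap.range T).restrictScalars ℝ) (T '' Gs) hne (by
        rintro _ ⟨G, _, rfl⟩
        exact ⟨G, rfl⟩) h0
    obtain ⟨g0, hg0⟩ := hcR
    set H : Circ → ℂ := fun x => ∑ j : Φ, conj (c j) * h j x with hH
    have hHi : Integrable H m := integrable_finsetSum _ fun j _ => (hreg j).int.const_mul _
    set L : Linf →L[ℂ] ℂ := intI H hHi with hL
    have hLT : ∀ g : Hinf, L (g : Linf) = ⟪c, T g⟫_ℂ := by
      intro g
      rw [hL, intI_apply, PiLp.inner_apply]
      have e1 : ∀ j : Φ, ⟪c j, T g j⟫_ℂ = ∫ x, conj (c j) * h j x * (g : Linf) x ∂m := by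
        intro j
        rw [RCLike.inner_apply, hT, mul_comm, ← integral_const_mul]
        refine integral_congr_ae (Eventually.of_forall fun x => ?_)
        show conj (c j) * (h j x * (g : Linf) x) = conj (c j) * h j x * (g : Linf) x
        ring
      simp only [e1]
      rw [← integral_finsetSum _ fun j _ => int_mul ((hreg j).int.const_mul _) (Lp.memLp _)]
      refine integral_congr_ae (Eventually.of_forall fun x => ?_)
      show H x * (g : Linf) x = _
      rw [hH, Finset.sum_mul]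
    have hLre : ∀ G ∈ Gs, 0 ≤ (L (G : Linf)).re := by
      intro G hG
      have e1 := hc (T G) ⟨G, hG, rfl⟩
      rw [hLT]
      have e2 : (⟪c, T G⟫_ℂ).re = ⟪c, T G⟫_ℝ := by
        rw [PiLp.inner_apply, PiLp.inner_apply, Complex.re_sum]
        refine Finset.sum_congr rfl fun j _ => ?_
        rw [Complex.inner, RCLike.inner_apply, mul_comm]
      rw [e2]
      exact e1
    have hstep : ∀ b : Linf, b ∈ Hinf → ‖b‖ < 1 → (L F).re ≤ (L b).re := by
      intro b hb hb1
      obtain ⟨s, hs, hs1, hcos⟩ := hschoice ‖b‖ (norm_nonneg _) hb1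
      obtain ⟨w1, w2, w3, w4, w5, w6⟩ := hWall s hs hs1
      have hmb : MemLp (fun x => b x - F x) ∞ m := (Lp.memLp b).sub (Lp.memLp F)
      have h1 := limW hHi hmb (W := fun n => W s n) (fun n => (w1 n).1) w2 w6
      have h2 : ∀ n, 0 ≤ (∫ x, H x * (W s n x * (b x - F x)) ∂m).re := by
        intro n
        obtain ⟨G, hG⟩ := hGex s n b hb hs hs1
        have h3 := hLre G ⟨s, n, ‖b‖, b, hb, hs, hs1, norm_nonneg _, hb1, hcos, le_rfl, hG⟩
        have h4 : L (G : Linf) = ∫ x, H x * (W s n x * (b x - F x)) ∂m := by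
          rw [hL, intI_apply]
          refine integral_congr_ae ?_
          filter_upwards [hG] with x hx
          rw [hx]
        rwa [h4] at h3
      have h3 : 0 ≤ (∫ x, H x * (b x - F x) ∂m).re :=
        ge_of_tendsto' ((Complex.continuous_re.tendsto _).comp h1) h2
      have h4 : ∫ x, H x * (b x - F x) ∂m = L b - L F := by
        rw [hL, intI_apply, intI_apply, ← integral_sub (int_mul hHi (Lp.memLp b))
          (int_mul hHi (Lp.memLp F))]
        refine integral_congr_ae (Eventually.of_forall fun x => ?_)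
        show H x * (b x - F x) = H x * b x - H x * F x
        ring
      rw [h4, Complex.sub_re] at h3
      linarith
    set LH : StrongDual ℂ Hinf := L.comp Hinf.subtypeL with hLH
    have hLHa : ∀ g : Hinf, LH g = L (g : Linf) := fun g => rfl
    set a : ℝ := -(L F).re with ha
    have ha0 : 0 ≤ a := by
      have := hstep 0 Hinf.zero_mem (by rw [norm_zero]; exact zero_lt_one)
      rw [map_zero, Complex.zero_re] at this
      linarith
    have hN : ‖LH‖ ≤ a := by
      refine ContinuousLinearMap.opNorm_le_bound _ ha0 fun g => ?_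
      obtain ⟨l, hl1, hl2⟩ := exists_phase (LH g)
      refine le_of_forall_pos_le_add fun ε hε => ?_
      -- scale
      have hpos : 0 < ‖g‖ + ε / (a + 1) := by positivity
      set t : ℝ := (‖g‖ + ε / (a + 1))⁻¹ with ht
      have ht0 : 0 < t := by positivity
      have h1 := hstep ((-(t : ℂ) * l) • (g : Linf)) (Hinf.smul_mem _ g.2) (by
        rw [norm_smul, norm_mul, norm_neg, Complex.norm_real, Real.norm_of_nonneg ht0.le]
        have e1 : ‖(g : Linf)‖ = ‖g‖ := rfl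
        rw [e1]
        calc t * ‖l‖ * ‖g‖ ≤ t * 1 * ‖g‖ := by gcongr
          _ = t * ‖g‖ := by ring
          _ < 1 := by
              rw [ht, inv_mul_lt_iff₀ hpos, mul_one]
              have : 0 < ε / (a + 1) := by positivity
              linarith)
      rw [map_smul, smul_eq_mul] at h1
      have e2 : -(t : ℂ) * l * L (g : Linf) = ((-(t * ‖LH g‖) : ℝ) : ℂ) := by
        rw [mul_assoc, ← hLHa, hl2]
        push_cast; ring
      rw [e2, Complex.ofReal_re] at h1
      have h3 : t * ‖LH g‖ ≤ a := by linarith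
      rw [ht, inv_mul_le_iff₀ hpos] at h3
      have h4 : ε / (a + 1) * a ≤ ε := by
        rw [div_mul_eq_mul_div, div_le_iff₀ (by positivity)]
        nlinarith
      nlinarith
    have hLHF : LH ⟨F, hFH⟩ = ((-a : ℝ) : ℂ) := by
      have h1 : ‖LH ⟨F, hFH⟩‖ ≤ a := by
        refine (LH.le_opNorm _).trans ?_
        have e1 : ‖(⟨F, hFH⟩ : Hinf)‖ = 1 := hFn
        rw [e1, mul_one]; exact hN
      have h2 : (LH ⟨F, hFH⟩).re = -a := by
        rw [hLHa, ha, neg_neg]
      have h3 := Complex.sq_norm_sub_sq_re (LH ⟨F, hFH⟩)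
      rw [h2] at h3
      have h4 : ‖LH ⟨F, hFH⟩‖ ^ 2 ≤ a ^ 2 := pow_le_pow_left₀ (norm_nonneg _) h1 2
      have h5 : (LH ⟨F, hFH⟩).im = 0 := by
        have h6 : (LH ⟨F, hFH⟩).im ^ 2 ≤ 0 := by nlinarith
        exact (pow_eq_zero_iff two_ne_zero).1 (le_antisymm h6 (sq_nonneg _))
      apply Complex.ext
      · rw [h2, Complex.ofReal_re]
      · rw [h5, Complex.ofReal_im]
    have hLg0 : LH g0 ≠ 0 := by
      have hg0' : T g0 = c := hg0
      rw [hLHa, hLT, hg0', inner_self_eq_norm_sq_to_K]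
      have : (‖c‖ : ℂ) ≠ 0 := by simpa using hc0
      exact pow_ne_zero _ this
    have hapos : 0 < a := by
      rcases ha0.eq_or_lt with h1 | h1
      · exfalso
        apply hLg0
        have h2 : ‖LH‖ ≤ 0 := by rw [h1]; exact hN
        have h3 := (LH.le_opNorm g0).trans (mul_le_mul_of_nonneg_right h2 (norm_nonneg _))
        rw [zero_mul] at h3
        exact norm_le_zero_iff.1 h3
      · exact h1
    obtain ⟨Λ, hΛ, hΛn⟩ := exists_extension_norm_eq Hinf LH
    set φ' : Linf →L[ℂ] ℂ := ((a⁻¹ : ℝ) : ℂ) • Λ with hφ'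
    have hφ'n : ‖φ'‖ ≤ 1 := by
      rw [hφ', norm_smul, Complex.norm_real, Real.norm_of_nonneg (by positivity), hΛn,
        inv_mul_le_iff₀ hapos, mul_one]
      exact hN
    have hreg' : Reg φ' 0 E := hsing φ' (-1) (by rw [norm_neg, norm_one]) hφ'n (by
      rw [hφ', ContinuousLinearMap.smul_apply, map_smul, smul_eq_mul, smul_eq_mul]
      have e1 : Λ F = LH ⟨F, hFH⟩ := hΛ ⟨F, hFH⟩
      rw [e1, hLHF]
      push_cast
      have : (a : ℂ) ≠ 0 := by exact_mod_cast hapos.ne'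
      field_simp)
    -- conclusion
    apply hLg0
    obtain ⟨w1, w2, w3, w4, w5, w6⟩ := hWall 1 zero_lt_one le_rfl
    have h1 := limW hHi (Lp.memLp (g0 : Linf)) (W := fun n => W 1 n) (fun n => (w1 n).1) w2 w6
    have h2 : ∀ n, ∫ x, H x * (W 1 n x * (g0 : Linf) x) ∂m = 0 := by
      intro n
      have hA1 := (w1 n).mul (ana_of_mem g0.2)
      have e1 := hsW φ' hreg' 1 zero_lt_one le_rfl n (fun x => (g0 : Linf) x) (Lp.memLp _)
      rw [← ap_congr φ' (mk_ae hA1), ap_coe, hφ', ContinuousLinearMap.smul_apply, smul_eq_mul] at e1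
      have e2 : Λ (mk hA1) = 0 := by
        rcases mul_eq_zero.1 e1 with h | h
        · exfalso
          have : (a⁻¹ : ℝ) = 0 := by exact_mod_cast h
          exact (inv_ne_zero hapos.ne') this
        · exact h
      have e3 : Λ (mk hA1) = LH ⟨mk hA1, mk_mem hA1⟩ := hΛ ⟨mk hA1, mk_mem hA1⟩
      rw [e3, hLHa, hL, intI_apply] at e2
      rw [← e2]
      refine integral_congr_ae ?_
      filter_upwards [mk_ae hA1] with x hx
      show H x * (W 1 n x * (g0 : Linf) x) = H x * (mk hA1 : Linf) x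
      rw [hx]
    simp only [h2] at h1
    rw [hLHa, hL, intI_apply]
    exact tendsto_nhds_unique h1 tendsto_const_nhds

end Pool.Agent.Q192.HX
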