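import Mathlib
import Pool.Agent.Q192.HX.Nec
import Pool.Agent.Q192.HX.Defs2

/-!
The final form.
-/

set_option autoImplicit false

open MeasureTheory
open scoped ENNReal

namespace Pool.Agent.Q192.HX

theorem exposed_equiv {X Y : Type*} [NormedAddCommGroup X] [NormedSpace ℂ X]
    [NormedAddCommGroup Y] [NormedSpace ℂ Y] (e : X ≃ₗᵢ[ℂ] Y) (x : X) :
    St.Exposed x ↔ Exposed (e x) := by
  constructor
  · rintro ⟨h1, φ, h2, h3⟩
    refine ⟨by rwa [e.norm_map], φ.comp (e.symm.toContinuousLinearEquiv : Y →L[ℂ] X), ?_, ?_⟩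
    · rw [← h2]
      exact ContinuousLinearMap.opNorm_comp_linearIsometryEquiv φ e.symm
    · ext y
      have h4 : e.symm y ∈ {y : X | ‖y‖ ≤ 1 ∧ φ y = 1} ↔ e.symm y ∈ ({x} : Set X) := by rw [h3]
      simp only [Set.mem_ofPred_eq, Set.mem_singleton_iff, LinearIsometryEquiv.norm_map] at h4
      rw [Set.mem_ofPred_eq, Set.mem_singleton_iff]
      refine Iff.trans h4 ?_
      exact e.symm_apply_eq
  · rintro ⟨h1, φ, h2, h3⟩
    refine ⟨by rwa [e.norm_map] at h1, φ.comp (e.toContinuousLinearEquiv : X →L[ℂ] Y), ?_, ?_⟩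
    · rw [← h2]
      exact ContinuousLinearMap.opNorm_comp_linearIsometryEquiv φ e
    · ext y
      have h4 : e y ∈ {y : Y | ‖y‖ ≤ 1 ∧ φ y = 1} ↔ e y ∈ ({e x} : Set Y) := by rw [h3]
      simp only [Set.mem_ofPred_eq, Set.mem_singleton_iff, LinearIsometryEquiv.norm_map] at h4
      rw [Set.mem_ofPred_eq, Set.mem_singleton_iff]
      refine Iff.trans h4 ?_
      exact e.injective.eq_iff

/-- old and new form of `H^∞_Φ` -/
noncomputable def bridge (Φ : Set (StrongDual ℂ St.HSp)) :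
    St.HPhi Φ ≃ₗᵢ[ℂ] (HPhi (show Set (StrongDual ℂ Hinf) from Φ)) where
  toFun f := ⟨f.1.1, f.1.2, f.2⟩
  invFun g := ⟨⟨g.1, g.2.choose⟩, g.2.choose_spec⟩
  map_add' _ _ := rfl
  map_smul' _ _ := rfl
  left_inv _ := rfl
  right_inv _ := rfl
  norm_map' _ := rfl

theorem final (Φ : Set (StrongDual ℂ St.HSp)) (hΦ : Φ.Finite) (f : St.HPhi Φ) :
    St.Exposed f ↔ ‖f‖ = 1 ∧ 0 < St.m {ζ | ‖(f : St.HSp).fn ζ‖ = 1} := by
  rw [exposed_equiv (bridge Φ)]
  exact ⟨nec _ hΦ (bridge Φ f), fun h => suff _ (bridge Φ f) h.1 h.2⟩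

end Pool.Agent.Q192.HX
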